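import Pool.Agent.Lib.MP_80d9dd_co.Sweep

set_option autoImplicit false
set_option linter.unusedSimpArgs false

namespace Pool.Agent.Lib.MP_80d9dd_co

/-- The list `x, x+1, ..., x+k-1`. -/
def rng : ℤ → ℕ → List ℤ
  | _, 0 => []
  | x, k + 1 => x :: rng (x + 1) k

theorem rng_zero (x : ℤ) : rng x 0 = [] := rfl
theorem rng_succ (x : ℤ) (k : ℕ) : rng x (k + 1) = x :: rng (x + 1) k := rfl

theorem mem_rng {x y : ℤ} {k : ℕ} : y ∈ rng x k ↔ x ≤ y ∧ y < x + k := by
  induction k generalizing x with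
  | zero => simp [rng_zero]
  | succ k ih =>
    rw [rng_succ, List.mem_cons, ih]
    push_cast
    omega

theorem rng_add (x : ℤ) (j k : ℕ) : rng x (j + k) = rng x j ++ rng (x + j) k := by
  induction j generalizing x with
  | zero => simp [rng_zero]
  | succ j ih =>
    have e : j + 1 + k = (j + k) + 1 := by omega
    rw [e, rng_succ, rng_succ, ih]
    have e2 : x + 1 + (j : ℤ) = x + ((j + 1 : ℕ) : ℤ) := by push_cast; ring
    rw [e2]
    rfl

theorem rng_two (x : ℤ) : rng x 2 = [x, x + 1] := rfl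

theorem ch_rng {x : ℤ} {k : ℕ} {S : Set ℤ} :
    Ch (rng x k) S ↔ ∀ a b, x ≤ a → a < b → b < x + k → b ∈ S → a ∈ S := by
  induction k generalizing x with
  | zero =>
    simp only [rng_zero, ch_nil, true_iff]
    intro a b h1 h2 h3
    omega
  | succ k ih =>
    rw [rng_succ, ch_cons, ih]
    constructor
    · rintro ⟨h1, h2⟩ a b ha hab hb hbS
      by_cases hax : a = x
      · subst hax
        rcases h2 with h2 | h2
        · exact h2
        · exact absurd hbS (h2 b (mem_rng.2 ⟨by omega, by push_cast at hb; omega⟩))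
      · exact h1 a b (by omega) hab (by push_cast at hb; omega) hbS
    · intro h
      refine ⟨fun a b ha hab hb => h a b (by omega) hab (by push_cast; omega), ?_⟩
      by_cases hx : x ∈ S
      · exact Or.inl hx
      · refine Or.inr fun y hy hyS => hx ?_
        rw [mem_rng] at hy
        exact h x y le_rfl (by omega) (by push_cast; omega) hyS

/-- A block of `S` starts at `w`. -/
def Bd (S : Set ℤ) (w : ℤ) : Prop := w - 1 ∉ S ∧ w ∈ S

/-- All block starts strictly between `x` and `y` are at even distance from `x`. -/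
def NoBd (S : Set ℤ) (x y : ℤ) : Prop := ∀ w, x < w → w < y → Bd S w → (w - x) % 2 = 0

/-- The first block start after `x` is at odd distance from `x`. -/
def FirstOdd (S : Set ℤ) (x : ℤ) : Prop :=
  ∃ w, x < w ∧ Bd S w ∧ ∀ w', x < w' → w' ≤ w → Bd S w' → (w' - x) % 2 = 1

/-- The shape of `S` on the window from `x` to `m`. -/
inductive Tail (V : Set ℤ → ℤ → ℤ → Prop) (m : ℤ) (S : Set ℤ) : Set ℤ → ℤ → Prop
  | done (H : Set ℤ) (x : ℤ) : NoBd S x m → Tail V m S H x
  | split (H : Set ℤ) (x u v : ℤ) : x + 2 ≤ u → (u - x) % 2 = 0 → NoBd S x u → Bd S u →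
      u + 3 ≤ v → (v - u) % 2 = 1 → NoBd S (u + 1) v → Bd S v → v < m → V H u v →
      Tail V m S (insert v (insert u H)) (v + 1) → Tail V m S H x

/-- The piece with two new odd blocks starting at `u` and `v`. -/
def Child (V : Set ℤ → ℤ → ℤ → Prop) (m : ℤ) (S : Set ℤ) (H : Set ℤ) (u v : ℤ) : Prop :=
  u ∈ S ∧ u + 3 ≤ v ∧ (v - u) % 2 = 1 ∧ NoBd S (u + 1) v ∧ Bd S v ∧ v < m ∧ V H u v ∧
    Tail V m S (insert v (insert u H)) (v + 1)

variable {V : Set ℤ → ℤ → ℤ → Prop} {m : ℤ} {S H : Set ℤ}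

theorem tail_unfold {x : ℤ} (hx : x + 2 ≤ m) :
    Tail V m S H x ↔ (¬ Bd S (x + 1) ∧ Tail V m S H (x + 2)) ∨
      (x + 1 ∉ S ∧ ∃ v, Child V m S H (x + 2) v) := by
  constructor
  · intro h
    cases h with
    | done _ _ h =>
      left
      refine ⟨fun hb => ?_, Tail.done _ _ fun w h1 h2 hb => ?_⟩
      · have := h (x + 1) (by omega) (by omega) hb
        omega
      · have := h w (by omega) h2 hb
        omega
    | split _ _ u v h1 h2 h3 h4 h5 h6 h7 h8 h9 h10 h11 =>
      by_cases hu : u = x + 2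
      · subst hu
        right
        refine ⟨?_, v, h4.2, h5, h6, h7, h8, h9, h10, h11⟩
        have := h4.1
        rwa [show x + 2 - 1 = x + 1 by ring] at this
      · left
        refine ⟨fun hb => ?_, Tail.split _ _ u v (by omega) (by omega) (fun w h1 h2 hb => ?_)
          h4 h5 h6 h7 h8 h9 h10 h11⟩
        · have := h3 (x + 1) (by omega) (by omega) hb
          omega
        · have := h3 w (by omega) h2 hb
          omega
  · rintro (⟨hb, h⟩ | ⟨hb, v, h1, h5, h6, h7, h8, h9, h10, h11⟩)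
    · have key : ∀ y, NoBd S (x + 2) y → NoBd S x y := by
        intro y h w h1 h2 hw
        by_cases e1 : w = x + 1
        · exact absurd (e1 ▸ hw) hb
        by_cases e2 : w = x + 2
        · omega
        have := h w (by omega) h2 hw
        omega
      cases h with
      | done _ _ h => exact Tail.done _ _ (key _ h)
      | split _ _ u v h1 h2 h3 h4 h5 h6 h7 h8 h9 h10 h11 =>
        exact Tail.split _ _ u v (by omega) (by omega) (key _ h3) h4 h5 h6 h7 h8 h9 h10 h11
    · refine Tail.split _ _ (x + 2) v le_rfl (by omega) (fun w h1 h2 hw => ?_) ⟨?_, h1⟩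
        h5 h6 h7 h8 h9 h10 h11
      · obtain rfl : w = x + 1 := by omega
        exact absurd hw.2 hb
      · rwa [show x + 2 - 1 = x + 1 by ring]

theorem tail_end : Tail V m S H m := Tail.done _ _ fun _ h1 h2 _ => by omega

/-- In a tail no block start inside the window is the first one at odd distance. -/
theorem Tail.not_first {x : ℤ} (h : Tail V m S H x) {w : ℤ} (hxw : x < w) (hwm : w < m)
    (hw : Bd S w) (hall : ∀ w', x < w' → w' ≤ w → Bd S w' → (w' - x) % 2 = 1) : False := by
  cases h with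
  | done _ _ h =>
    have := h w hxw hwm hw
    have := hall w hxw le_rfl hw
    omega
  | split _ _ u v h1 h2 h3 h4 h5 h6 h7 h8 h9 h10 h11 =>
    by_cases hu : w < u
    · have := h3 w hxw hu hw
      have := hall w hxw le_rfl hw
      omega
    · have := hall u (by omega) (by omega) h4
      omega

theorem Child.odd {u v : ℤ} (h : Child V m S H u v) :
    ∀ w', u < w' → w' ≤ v → Bd S w' → (w' - u) % 2 = 1 := by
  obtain ⟨h1, h5, h6, h7, h8, h9, h10, h11⟩ := h
  intro w h2 h3 hw
  by_cases e1 : w = u + 1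
  · omega
  by_cases e2 : w = v
  · omega
  have := h7 w (by omega) (by omega) hw
  omega

theorem Child.not_tail {u v : ℤ} (h : Child V m S H u v) {H' : Set ℤ} (h' : Tail V m S H' u) :
    False :=
  h'.not_first (w := v) (by have := h.2.1; omega) h.2.2.2.2.2.1 h.2.2.2.2.1 h.odd

theorem Child.unique {u v v' : ℤ} (h : Child V m S H u v) (h' : Child V m S H u v')
    (hv : v < v') : False := by
  have ho := h'.odd
  obtain ⟨h1, h5, h6, h7, h8, h9, h10, h11⟩ := h
  obtain ⟨h1', h5', h6', h7', h8', h9', h10', h11'⟩ := h'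
  refine h11.not_first (w := v') (by omega) h9' h8' fun w h2 h3 hw => ?_
  have := ho w (by omega) h3 hw
  omega

theorem sweep_pairs {L l' : List ℤ} {Q : Set ℤ → Prop} (h : Sw L l' Q) (y : ℤ) (j : ℕ) :
    ∃ l'', Sw (L ++ rng y (2 * j)) l'' (fun S => Q S ∧ NoBd S y (y + 2 * j)) := by
  induction j with
  | zero =>
    refine ⟨l', ?_⟩
    simp only [mul_zero, rng_zero, List.append_nil]
    refine h.congr fun S => ⟨fun h => ⟨h, fun w h1 h2 _ => ?_⟩, fun h => h.1⟩
    simp at h2
    omega
  | succ j ih =>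
    obtain ⟨l'', ih⟩ := ih
    have e : L ++ rng y (2 * (j + 1)) = (L ++ rng y (2 * j)) ++ [y + 2 * j, y + 2 * j + 1] := by
      rw [show 2 * (j + 1) = 2 * j + 2 by ring, rng_add, rng_two]
      simp
    rw [e]
    refine ⟨_, (ih.triple (y + 2 * j) (y + 2 * j + 1)).congr fun S => ?_⟩
    constructor
    · rintro ⟨⟨hQ, hN⟩, hab⟩
      refine ⟨hQ, fun w h1 h2 hw => ?_⟩
      push_cast at h2
      by_cases e1 : w < y + 2 * j
      · exact hN w h1 e1 hw
      by_cases e2 : w = y + 2 * j
      · omega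
      obtain rfl : w = y + 2 * j + 1 := by omega
      exact absurd (hab hw.2) (by have := hw.1; rwa [add_sub_cancel_right] at this)
    · rintro ⟨hQ, hN⟩
      refine ⟨⟨hQ, fun w h1 h2 hw => hN w h1 (by push_cast; omega) hw⟩, fun hb => ?_⟩
      by_contra ha
      have := hN (y + 2 * j + 1) (by omega) (by push_cast; omega)
        ⟨by rwa [add_sub_cancel_right], hb⟩
      omega

/-- The order reached after the pieces up to `v = u + 1 + 2 j`. -/
def ord (u : ℤ) (j r : ℕ) : List ℤ :=
  u :: (u + 1 + 2 * j) :: (rng (u + 2 + 2 * j) r ++ rng (u + 1) (2 * j))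

theorem sweep_child {u : ℤ} {j r : ℕ} (hm : m = u + 4 + 2 * j + r)
    (hV : V H u (u + 3 + 2 * j)) {l' : List ℤ}
    (hT : Sw (rng (u + 4 + 2 * j) r) l'
      (fun S => Tail V m S (insert (u + 3 + 2 * j) (insert u H)) (u + 3 + 2 * j + 1))) :
    Sw (ord u j (r + 2)) (ord u (j + 1) r)
      (fun S => Ch (ord u j (r + 2)) S ∨ Child V m S H u (u + 3 + 2 * j)) := by
  obtain ⟨l'', hY⟩ := sweep_pairs hT (u + 1) j
  set R := rng (u + 4 + 2 * j) r ++ rng (u + 1) (2 * j) with hR
  have e1 : ord u j (r + 2) = u :: (u + 1 + 2 * j) :: (u + 2 + 2 * j) :: (u + 3 + 2 * j) :: R := by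
    rw [ord, rng_succ, rng_succ, hR]
    rw [show u + 2 + 2 * (j : ℤ) + 1 + 1 = u + 4 + 2 * j by ring,
      show u + 2 + 2 * (j : ℤ) + 1 = u + 3 + 2 * j by ring]
    rfl
  have e2 : ord u (j + 1) r =
      u :: (u + 3 + 2 * j) :: ((R ++ [u + 1 + 2 * j]) ++ [u + 2 + 2 * j]) := by
    rw [ord, show 2 * (j + 1) = 2 * j + 2 by ring, rng_add, rng_two, hR]
    push_cast
    rw [show u + 1 + 2 * ((j : ℤ) + 1) = u + 3 + 2 * j by ring,
      show u + 2 + 2 * ((j : ℤ) + 1) = u + 4 + 2 * j by ring,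
      show u + 1 + 2 * (j : ℤ) + 1 = u + 2 + 2 * j by ring]
    simp
  have t1 := (transit (u + 1 + 2 * j) (u + 2 + 2 * j) (u + 3 + 2 * j) R).front u
  have t2 := ((((hY.double (u + 1 + 2 * j)).symm.back (u + 2 + 2 * j)).front
    (u + 3 + 2 * j))).front u
  rw [e1, e2]
  have hC : ∀ S, Child V m S H u (u + 3 + 2 * j) ↔
      (u ∈ S ∧ u + 2 + 2 * j ∉ S ∧ u + 3 + 2 * j ∈ S ∧
        (Tail V m S (insert (u + 3 + 2 * j) (insert u H)) (u + 3 + 2 * j + 1) ∧
          NoBd S (u + 1) (u + 1 + 2 * j))) := by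
    intro S
    have e3 : u + 3 + 2 * (j : ℤ) - 1 = u + 2 + 2 * j := by ring
    constructor
    · rintro ⟨h1, h5, h6, h7, h8, h9, h10, h11⟩
      exact ⟨h1, e3 ▸ h8.1, h8.2, h11, fun w h1 h2 hw => h7 w h1 (by omega) hw⟩
    · rintro ⟨h1, h2, h3, h4, h5⟩
      refine ⟨h1, by omega, by omega, fun w a1 a2 hw => ?_, ⟨e3 ▸ h2, h3⟩, by omega, hV, h4⟩
      by_cases c1 : w < u + 1 + 2 * j
      · exact h5 w a1 c1 hw
      by_cases c2 : w = u + 1 + 2 * j
      · omega
      obtain rfl : w = u + 2 + 2 * j := by omega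
      exact absurd hw.2 h2
  refine (Sw.trans t1 t2 fun S h1 h2 => ?_).congr fun S => ?_
  · have := @Ful.ch _ R S
    have := @Emp.ch _ R S
    simp only [List.cons_append, List.nil_append, ch_cons, ch_snoc, ful_append, ful_cons, ful_nil,
      emp_append, emp_cons, emp_nil] at *
    grind
  · have := @Ful.ch _ R S
    have := @Emp.ch _ R S
    have := @Sw.start _ _ _ _ hY S
    rw [hC]
    simp only [List.cons_append, List.nil_append, ch_cons, ch_snoc, ful_append, ful_cons, ful_nil,
      emp_append, emp_cons, emp_nil] at *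
    grind

theorem alpha_steps (hVc : ∀ H u v, V H u v → u + 5 ≤ v → V H u (v - 2)) {u : ℤ}
    (hT : ∀ (H' : Set ℤ) (x : ℤ) (r : ℕ), u < x → m = x + 2 * r →
      ∃ l', Sw (rng x (2 * r)) l' (fun S => Tail V m S H' x))
    (j r p : ℕ) (hp : p = 2 + 2 * j + 2 * r) (hm : m = u + p)
    (hV : j = 0 ∨ V H u (u + 1 + 2 * j)) :
    Sw (rng u p) (ord u j (2 * r))
      (fun S => Ch (rng u p) S ∨ ∃ v, v ≤ u + 1 + 2 * j ∧ Child V m S H u v) := by
  induction j generalizing r with
  | zero =>
    have e : ord u 0 (2 * r) = rng u p := by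
      rw [hp, show 2 + 2 * 0 + 2 * r = 2 * r + 1 + 1 by ring, rng_succ, rng_succ, ord]
      simp only [Nat.cast_zero, mul_zero, add_zero, rng_zero, List.append_nil]
      rw [show u + 1 + 1 = u + 2 by ring]
    rw [e]
    refine (Sw.refl _).congr fun S => ⟨Or.inl, ?_⟩
    rintro (h | ⟨v, h1, h2⟩)
    · exact h
    · have := h2.2.1
      simp at h1
      omega
  | succ j ih =>
    have hV' : V H u (u + 3 + 2 * j) := by
      rcases hV with hV | hV
      · omega
      · rwa [show u + 1 + 2 * ((j + 1 : ℕ) : ℤ) = u + 3 + 2 * j by push_cast; ring] at hV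
    have ih' := ih (r + 1) (by omega) (by
      rcases Nat.eq_zero_or_pos j with h0 | h0
      · exact Or.inl h0
      · right
        have := hVc H u _ hV' (by omega)
        rwa [show u + 3 + 2 * (j : ℤ) - 2 = u + 1 + 2 * j by ring] at this)
    obtain ⟨l', hl'⟩ := hT (insert (u + 3 + 2 * j) (insert u H)) (u + 4 + 2 * j) r (by omega)
      (by omega)
    rw [show u + 4 + 2 * (j : ℤ) = u + 3 + 2 * j + 1 by ring] at hl'
    have hc := sweep_child (V := V) (m := m) (H := H) (u := u) (j := j) (r := 2 * r)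
      (by push_cast; omega) hV' (l' := l')
      (by rwa [show u + 4 + 2 * (j : ℤ) = u + 3 + 2 * j + 1 by ring])
    rw [show 2 * (r + 1) = 2 * r + 2 by ring] at ih'
    refine (Sw.trans ih' hc fun S h1 h2 => ?_).congr fun S => ?_
    · rcases h2 with h2 | h2
      · exact h2
      exfalso
      rcases h1 with h1 | ⟨v, hv, h1⟩
      · have hb := h2.2.2.2.2.1
        exact hb.1 (ch_rng.1 h1 _ _ (by omega) (by omega) (by omega) hb.2)
      · exact h1.unique h2 (by omega)
    · constructor
      · rintro ((h | ⟨v, hv, h⟩) | (h | h))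
        · exact Or.inl h
        · exact Or.inr ⟨v, by push_cast; omega, h⟩
        · rcases ih'.finish h with h | ⟨v, hv, h⟩
          · exact Or.inl h
          · exact Or.inr ⟨v, by push_cast; omega, h⟩
        · exact Or.inr ⟨_, by push_cast; omega, h⟩
      · rintro (h | ⟨v, hv, h⟩)
        · exact Or.inl (Or.inl h)
        · by_cases hv' : v ≤ u + 1 + 2 * j
          · exact Or.inl (Or.inr ⟨v, hv', h⟩)
          · have := h.2.2.1
            obtain rfl : v = u + 3 + 2 * j := by push_cast at hv; omega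
            exact Or.inr (Or.inr h)

theorem alpha (hVc : ∀ H u v, V H u v → u + 5 ≤ v → V H u (v - 2)) {u : ℤ}
    (hT : ∀ (H' : Set ℤ) (x : ℤ) (r : ℕ), u < x → m = x + 2 * r →
      ∃ l', Sw (rng x (2 * r)) l' (fun S => Tail V m S H' x))
    (q : ℕ) (hm : m = u + 2 * q) :
    ∃ l', Sw (rng u (2 * q)) l' (fun S => Ch (rng u (2 * q)) S ∨ ∃ v, Child V m S H u v) := by
  classical
  rcases Nat.eq_zero_or_pos q with h0 | h0
  · subst h0
    refine ⟨_, (Sw.refl _).congr fun S => ⟨Or.inl, ?_⟩⟩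
    rintro (h | ⟨v, h⟩)
    · exact h
    · simp [rng_zero]
  let P : ℕ → Prop := fun j => j = 0 ∨ (V H u (u + 1 + 2 * j) ∧ j < q)
  have hP0 : P 0 := Or.inl rfl
  have hJ : P (Nat.findGreatest P q) := Nat.findGreatest_spec (Nat.zero_le q) hP0
  have hmax : ∀ j, j ≤ q → P j → j ≤ Nat.findGreatest P q := fun j h1 h2 =>
    Nat.le_findGreatest h1 h2
  generalize Nat.findGreatest P q = J at hJ hmax
  have hJq : J < q := by
    rcases hJ with h | h
    · omega
    · exact h.2
  refine ⟨_, (alpha_steps (H := H) hVc hT J (q - 1 - J) (2 * q) (by omega) (by push_cast; omega)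
    (hJ.imp id And.left)).congr fun S => ?_⟩
  constructor
  · rintro (h | ⟨v, -, h⟩)
    · exact Or.inl h
    · exact Or.inr ⟨v, h⟩
  · rintro (h | ⟨v, h⟩)
    · exact Or.inl h
    · refine Or.inr ⟨v, ?_, h⟩
      obtain ⟨h1, h5, h6, h7, h8, h9, h10, h11⟩ := h
      obtain ⟨j, hj⟩ : ∃ j : ℕ, v = u + 1 + 2 * j := ⟨((v - u - 1) / 2).toNat, by omega⟩
      have := hmax j (by omega) (Or.inr ⟨hj ▸ h10, by omega⟩)
      omega

theorem sweep_tail (hVc : ∀ H u v, V H u v → u + 5 ≤ v → V H u (v - 2)) (q : ℕ) :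
    ∀ (H : Set ℤ) (x : ℤ), m = x + 2 * q →
      ∃ l', Sw (rng x (2 * q)) l' (fun S => Tail V m S H x) := by
  induction q using Nat.strong_induction_on with
  | _ q ih =>
  intro H x hm
  rcases q with _ | q
  · obtain rfl : m = x := by simpa using hm
    exact ⟨_, (Sw.refl _).congr fun S => by simp [rng_zero, tail_end]⟩
  obtain ⟨P', hT⟩ := ih q (by omega) H (x + 2) (by push_cast at hm; omega)
  obtain ⟨P'', hA⟩ := alpha (H := H) (u := x + 2) hVc
    (fun H' y r h1 h2 => ih r (by push_cast at hm; omega) H' y h2) q (by push_cast at hm; omega)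
  set P := rng (x + 2) (2 * q) with hP
  have e : rng x (2 * (q + 1)) = x :: (x + 1) :: P := by
    rw [show 2 * (q + 1) = 2 * q + 1 + 1 by ring, rng_succ, rng_succ, hP,
      show x + 1 + 1 = x + 2 by ring]
  rw [e]
  have t1 := (hT.double (x + 1)).symm.front x
  have t2 := (hA.double x).symm.back (x + 1)
  have t3 := (hT.back x).back (x + 1)
  have hd : ∀ S, (∃ v, Child V m S H (x + 2) v) → Tail V m S H (x + 2) → False :=
    fun S ⟨v, h⟩ h' => h.not_tail h'
  have hne : ∀ S, (∃ v, Child V m S H (x + 2) v) → ¬ Ful P S := by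
    rintro S ⟨v, h1, h5, h6, h7, h8, h9, h10, h11⟩ hF
    exact h8.1 (hF _ (mem_rng.2 ⟨by omega, by push_cast at hm ⊢; omega⟩))
  refine ⟨_, (Sw.trans (Sw.trans t1 t2 fun S h1 h2 => ?_) t3 fun S h1 h2 => ?_).congr
    fun S => ?_⟩
  · have := @Ful.ch _ P S
    have := @Emp.ch _ P S
    have := hd S
    simp only [List.cons_append, List.nil_append, ch_cons, ch_snoc, ful_append, ful_cons, ful_nil,
      emp_append, emp_cons, emp_nil] at *
    grind
  · have := @Ful.ch _ P S
    have := @Emp.ch _ P S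
    have := hd S
    simp only [List.cons_append, List.nil_append, ch_cons, ch_snoc, ful_append, ful_cons, ful_nil,
      emp_append, emp_cons, emp_nil] at *
    grind
  · have := @Ful.ch _ P S
    have := @Emp.ch _ P S
    have := @Sw.start _ _ _ _ hT S
    have := hne S
    rw [tail_unfold (x := x) (by push_cast at hm; omega), Bd, add_sub_cancel_right]
    clear t1 t2 t3 hT hA ih hd hne
    simp only [List.cons_append, List.nil_append, ch_cons, ch_snoc, ful_append, ful_cons, ful_nil,
      emp_append, emp_cons, emp_nil] at *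
    grind

/-- The sets that represent the rotation classes. -/
def Rep (V : Set ℤ → ℤ → ℤ → Prop) (m : ℤ) (S : Set ℤ) : Prop :=
  0 ∈ S ∧ m + 1 ∉ S ∧ Tail V m S {0} 1

/-- The sweep through one sector. -/
theorem sweep_sector (hVc : ∀ H u v, V H u v → u + 5 ≤ v → V H u (v - 2)) (q : ℕ)
    (hm : m = 1 + 2 * q) :
    Sw (rng 0 (2 * q + 3)) (m :: (m + 1) :: rng 0 (2 * q + 1))
      (fun S => Rep V m S ∨ Ch (m :: (m + 1) :: rng 0 (2 * q + 1)) S) ∧
    ∀ S, Ch (rng 0 (2 * q + 3)) S →
      Rep V m S ∨ Ful (rng 0 (2 * q + 3)) S ∨ Emp (rng 0 (2 * q + 3)) S := by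
  obtain ⟨P', hT⟩ := sweep_tail (m := m) hVc q {0} 1 hm
  set P := rng 1 (2 * q) with hP
  have e1 : rng 0 (2 * q + 3) = 0 :: ((P ++ [m]) ++ [m + 1]) := by
    rw [show 2 * q + 3 = (2 * q + 2) + 1 by ring, rng_succ, rng_add, rng_two, hP, hm]
    simp
  have e2 : rng 0 (2 * q + 1) = 0 :: P := by rw [rng_succ, hP]; simp
  rw [e1, e2]
  have t1 := ((hT.double m).back (m + 1)).front 0
  have t2 := Sw.swap [] 0 m (P ++ [m + 1])
  have t3 := (ladder (0 :: P) (m + 1)).front m
  refine ⟨(Sw.trans t1 (Sw.trans t2 t3 fun S h1 h2 => ?_) fun S h1 h2 => ?_).congr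
    fun S => ?_, fun S hS => ?_⟩
  · have := @Ful.ch _ P S
    have := @Emp.ch _ P S
    simp only [List.cons_append, List.nil_append, ch_cons, ch_snoc, ful_append, ful_cons, ful_nil,
      emp_append, emp_cons, emp_nil] at *
    grind
  · have := @Ful.ch _ P S
    have := @Emp.ch _ P S
    simp only [List.cons_append, List.nil_append, ch_cons, ch_snoc, ful_append, ful_cons, ful_nil,
      emp_append, emp_cons, emp_nil] at *
    grind
  · have := @Ful.ch _ P S
    have := @Emp.ch _ P S
    have := @Sw.start _ _ _ _ hT S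
    simp only [Rep, List.cons_append, List.nil_append, ch_cons, ch_snoc, ful_append, ful_cons,
      ful_nil, emp_append, emp_cons, emp_nil] at *
    grind
  · have := @Sw.start _ _ _ _ hT S
    simp only [Rep, List.cons_append, List.nil_append, ch_cons, ch_snoc, ful_append, ful_cons,
      ful_nil, emp_append, emp_cons, emp_nil] at *
    grind

end Pool.Agent.Lib.MP_80d9dd_co
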