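import Pool.Agent.Lib.MP_80d9dd_co.Polar

set_option autoImplicit false

namespace Pool.Agent.Lib.MP_80d9dd_co

open Set Filter Topology

/-- Piecewise linear interpolation of an integer sequence. -/
noncomputable def lin (g : ℤ → ℤ) (x : ℝ) : ℝ :=
  (1 - Int.fract x) * g ⌊x⌋ + Int.fract x * g (⌊x⌋ + 1)

theorem lin_eq (g : ℤ → ℤ) (k : ℤ) {x : ℝ} (h1 : (k : ℝ) ≤ x) (h2 : x ≤ k + 1) :
    lin g x = (1 - (x - k)) * g k + (x - k) * g (k + 1) := by
  rcases h2.lt_or_eq with h2 | h2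
  · have : ⌊x⌋ = k := Int.floor_eq_iff.2 ⟨h1, h2⟩
    rw [lin, Int.fract, this]
  · have e : x = ((k + 1 : ℤ) : ℝ) := by push_cast; exact h2
    rw [lin, e, Int.fract_intCast, Int.floor_intCast]
    push_cast
    ring

theorem continuous_lin (g : ℤ → ℤ) : Continuous (lin g) := by
  rw [continuous_iff_continuousAt]
  intro x
  have hR : ContinuousWithinAt (lin g) (Ici x) x := by
    have : ContinuousWithinAt (fun y : ℝ => (1 - (y - ⌊x⌋)) * g ⌊x⌋ + (y - ⌊x⌋) * g (⌊x⌋ + 1))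
        (Ici x) x := by fun_prop
    refine this.congr_of_eventuallyEq ?_ (lin_eq g _ (Int.floor_le x) (Int.lt_floor_add_one x).le)
    filter_upwards [Icc_mem_nhdsGE (Int.lt_floor_add_one x)] with y hy
    exact lin_eq g _ ((Int.floor_le x).trans hy.1) hy.2
  have hL : ContinuousWithinAt (lin g) (Iic x) x := by
    have a1 : ((⌈x⌉ - 1 : ℤ) : ℝ) < x := by
      push_cast
      linarith [Int.ceil_lt_add_one x]
    have a2 : x ≤ ((⌈x⌉ - 1 : ℤ) : ℝ) + 1 := by
      push_cast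
      linarith [Int.le_ceil x]
    have : ContinuousWithinAt (fun y : ℝ => (1 - (y - (⌈x⌉ - 1 : ℤ))) * g (⌈x⌉ - 1) +
        (y - (⌈x⌉ - 1 : ℤ)) * g (⌈x⌉ - 1 + 1)) (Iic x) x := by fun_prop
    refine this.congr_of_eventuallyEq ?_ (lin_eq g _ a1.le a2)
    filter_upwards [Icc_mem_nhdsLE a1] with y hy
    exact lin_eq g _ hy.1 (hy.2.trans a2)
  exact continuousAt_iff_continuous_left_right.2 ⟨hL, hR⟩

theorem lin_add_int (g : ℤ → ℤ) (x : ℝ) (k : ℤ) :
    lin g (x + k) = lin (fun t => g (t + k)) x := by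
  simp only [lin, Int.fract_add_intCast, Int.floor_add_intCast]
  rw [show ⌊x⌋ + k + 1 = ⌊x⌋ + 1 + k by ring]

section wires

variable {ι : Type*} (h : ι → ℤ → ℤ)

/-- One step exchanges two wires at neighbouring heights. -/
def Step (t : ℤ) (a b : ι) : Prop :=
  h a t = h b t + 1 ∧ h a (t + 1) = h b t ∧ h b (t + 1) = h a t ∧
    ∀ c, c ≠ a → c ≠ b → h c (t + 1) = h c t

variable {h}

theorem Step.pattern (hinj : ∀ t i j, h i t = h j t → i = j) {t : ℤ} {a b : ι} (hs : Step h t a b)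
    {i j : ι} (hij : i ≠ j) :
    (h i t < h j t ∧ h i (t + 1) < h j (t + 1)) ∨ (h j t < h i t ∧ h j (t + 1) < h i (t + 1)) ∨
      (i = a ∧ j = b) ∨ (i = b ∧ j = a) := by
  obtain ⟨h1, h2, h3, h4⟩ := hs
  have n1 : h i t ≠ h j t := fun e => hij (hinj t i j e)
  by_cases ia : i = a
  · by_cases jb : j = b
    · tauto
    · have ja : j ≠ a := fun e => hij (ia.trans e.symm)
      have := h4 j ja jb
      have : h j t ≠ h b t := fun e => jb (hinj t _ _ e)
      subst ia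
      omega
  by_cases ib : i = b
  · by_cases ja : j = a
    · tauto
    · have jb : j ≠ b := fun e => hij (ib.trans e.symm)
      have := h4 j ja jb
      have : h j t ≠ h a t := fun e => ja (hinj t _ _ e)
      subst ib
      omega
  have := h4 i ia ib
  have : h i t ≠ h a t := fun e => ia (hinj t _ _ e)
  have : h i t ≠ h b t := fun e => ib (hinj t _ _ e)
  by_cases ja : j = a
  · subst ja
    omega
  by_cases jb : j = b
  · subst jb
    omega
  have := h4 j ja jb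
  omega

theorem conv_lt {s : ℝ} (h0 : 0 ≤ s) (h1 : s ≤ 1) {u v u' v' : ℤ} (a : u < v) (b : u' < v') :
    (1 - s) * u + s * u' < (1 - s) * v + s * v' := by
  have a' : (u : ℝ) + 1 ≤ v := by exact_mod_cast a
  have b' : (u' : ℝ) + 1 ≤ v' := by exact_mod_cast b
  nlinarith

theorem Step.diff {x : ℝ} {a b : ι} (hs : Step h ⌊x⌋ a b) :
    lin (h a) x - lin (h b) x = 1 - 2 * Int.fract x := by
  obtain ⟨h1, h2, h3, -⟩ := hs
  simp only [lin, h2, h3, h1]
  push_cast
  ring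

theorem lin_lt_iff (hinj : ∀ t i j, h i t = h j t → i = j) (hs : ∀ t, ∃ a b, Step h t a b)
    {i j : ι} (hij : i ≠ j) (x : ℝ) :
    lin (h j) x < lin (h i) x ↔ (Int.fract x ≤ 1 / 2 → h j ⌊x⌋ < h i ⌊x⌋) ∧
      (1 / 2 ≤ Int.fract x → h j (⌊x⌋ + 1) < h i (⌊x⌋ + 1)) := by
  obtain ⟨a, b, hs⟩ := hs ⌊x⌋
  have f0 := Int.fract_nonneg x
  have f1 := (Int.fract_lt_one x).le
  have hd := hs.diff
  rcases hs.pattern hinj hij with ⟨c1, c2⟩ | ⟨c1, c2⟩ | ⟨rfl, rfl⟩ | ⟨rfl, rfl⟩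
  · have := conv_lt f0 f1 c1 c2
    constructor
    · intro hlt
      exact absurd hlt (not_lt.2 this.le)
    · rintro ⟨d1, d2⟩
      rcases le_total (Int.fract x) (1 / 2) with e | e
      · have := d1 e
        omega
      · have := d2 e
        omega
  · exact ⟨fun _ => ⟨fun _ => c1, fun _ => c2⟩, fun _ => conv_lt f0 f1 c1 c2⟩
  · obtain ⟨h1, h2, h3, -⟩ := hs
    constructor
    · intro hlt
      exact ⟨fun _ => by omega, fun e => by linarith⟩
    · rintro ⟨-, d2⟩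
      by_contra hc
      have := d2 (by linarith)
      omega
  · obtain ⟨h1, h2, h3, -⟩ := hs
    constructor
    · intro hlt
      exact ⟨fun e => by linarith, fun _ => by omega⟩
    · rintro ⟨d1, -⟩
      by_contra hc
      have := d1 (by linarith)
      omega

theorem lin_eq_imp (hinj : ∀ t i j, h i t = h j t → i = j) {x : ℝ} {a b : ι}
    (hs : Step h ⌊x⌋ a b) {i j : ι} (hij : i ≠ j) (e : lin (h i) x = lin (h j) x) :
    Int.fract x = 1 / 2 ∧ ((i = a ∧ j = b) ∨ (i = b ∧ j = a)) := by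
  have f0 := Int.fract_nonneg x
  have f1 := (Int.fract_lt_one x).le
  have hd := hs.diff
  rcases hs.pattern hinj hij with ⟨c1, c2⟩ | ⟨c1, c2⟩ | ⟨rfl, rfl⟩ | ⟨rfl, rfl⟩
  · exact absurd e (conv_lt f0 f1 c1 c2).ne
  · exact absurd e.symm (conv_lt f0 f1 c1 c2).ne
  · exact ⟨by linarith, Or.inl ⟨rfl, rfl⟩⟩
  · exact ⟨by linarith, Or.inr ⟨rfl, rfl⟩⟩

theorem lin_frequently (hinj : ∀ t i j, h i t = h j t → i = j) (hs : ∀ t, ∃ a b, Step h t a b)
    {i j : ι} (hij : i ≠ j) {x : ℝ} (e : lin (h i) x = lin (h j) x) :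
    ∃ᶠ y in 𝓝 x, lin (h j) y < lin (h i) y := by
  obtain ⟨a, b, hs⟩ := hs ⌊x⌋
  obtain ⟨e1, e2⟩ := lin_eq_imp hinj hs hij e
  have hx : x = ⌊x⌋ + 1 / 2 := by rw [← e1, Int.floor_add_fract]
  have key : ∀ y : ℝ, (⌊x⌋ : ℝ) < y → y < ⌊x⌋ + 1 →
      lin (h a) y - lin (h b) y = 2 * (x - y) := by
    intro y c1 c2
    have : ⌊y⌋ = ⌊x⌋ := Int.floor_eq_iff.2 ⟨c1.le, c2⟩
    rw [Step.diff (this ▸ hs), Int.fract, this]
    linarith
  rcases e2 with ⟨rfl, rfl⟩ | ⟨rfl, rfl⟩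
  · refine Frequently.filter_mono (f := 𝓝[<] x) (Eventually.frequently ?_) nhdsWithin_le_nhds
    filter_upwards [Ioo_mem_nhdsLT (show (⌊x⌋ : ℝ) < x by linarith)] with y hy
    have := key y hy.1 (by linarith [hy.2])
    linarith [hy.2]
  · refine Frequently.filter_mono (f := 𝓝[>] x) (Eventually.frequently ?_) nhdsWithin_le_nhds
    filter_upwards [Ioo_mem_nhdsGT (show x < (⌊x⌋ : ℝ) + 1 by linarith)] with y hy
    have := key y (by linarith [hy.1]) hy.2
    linarith [hy.1]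

end wires

/-- From a periodic wiring diagram to a Venn diagram. -/
theorem venn_of_wires (n M : ℕ) (hn : 0 < n) (hM : 0 < M) (g : ℤ → ℤ)
    (hper : ∀ t, g (t + n * M) = g t)
    (h : Fin n → ℤ → ℤ) (hh : ∀ i t, h i t = g (t - (i : ℕ) * M))
    (hinj : ∀ t i j, h i t = h j t → i = j) (hs : ∀ t, ∃ a b, Step h t a b)
    (hcont : ∀ S : Finset (Fin n), ∃ p q : ℤ, p ≤ q ∧
      (∀ t, p ≤ t → t ≤ q → ∀ i ∈ S, ∀ j ∉ S, h j t < h i t) ∧
      ∀ t, (∀ i ∈ S, ∀ j ∉ S, h j t < h i t) →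
        ∃ k : ℤ, p ≤ t + k * (n * M) ∧ t + k * (n * M) ≤ q) :
    ∃ (γ : ℝ → ℂ) (c : ℂ) (K Ins Out : Fin n → Set ℂ),
      Continuous γ ∧ Function.Periodic γ 1 ∧ Set.InjOn γ (Set.Ico 0 1) ∧
      (∀ i : Fin n, K i = Set.range (fun t : ℝ =>
          c + Complex.exp (2 * (Real.pi : ℂ) * Complex.I * ((i : ℕ) : ℂ) / (n : ℂ)) * (γ t - c))) ∧
      (∀ i : Fin n, Ins i = {p : ℂ | p ∉ K i ∧ Bornology.IsBounded (connectedComponentIn (K i)ᶜ p)}) ∧
      (∀ i : Fin n, Out i = {p : ℂ | p ∉ K i ∧ ¬ Bornology.IsBounded (connectedComponentIn (K i)ᶜ p)}) ∧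
      (∀ S : Finset (Fin n), IsConnected ((⋂ i ∈ S, Ins i) ∩ ⋂ i ∈ Sᶜ, Out i)) ∧
      (∀ i j : Fin n, i ≠ j → (K i ∩ K j).Finite) ∧
      (∀ i j k : Fin n, i ≠ j → j ≠ k → i ≠ k → K i ∩ K j ∩ K k = ∅) ∧
      (∀ i j : Fin n, i ≠ j → ∀ p ∈ K i ∩ K j, ∀ U ∈ nhds p,
          (U ∩ Ins i ∩ Ins j).Nonempty ∧ (U ∩ Ins i ∩ Out j).Nonempty ∧
          (U ∩ Out i ∩ Ins j).Nonempty ∧ (U ∩ Out i ∩ Out j).Nonempty) := by
  have hn' : (0 : ℝ) < n := by exact_mod_cast hn
  have hM' : (0 : ℝ) < M := by exact_mod_cast hM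
  set N : ℝ := n * M with hN
  have hN0 : 0 < N := by positivity
  have hgk : ∀ k t : ℤ, g (t + k * (n * M)) = g t := by
    intro k t
    have : Function.Periodic g (n * M) := hper
    exact this.int_mul k t
  have hψ : ∀ (i : Fin n) (t : ℝ), lin (h i) (N * t) = lin g (N * (t - (i : ℕ) / n)) := by
    intro i t
    have e : N * (t - (i : ℕ) / n) = N * t + ((-((i : ℕ) * M : ℤ) : ℤ) : ℝ) := by
      push_cast
      rw [hN]
      field_simp
      ring
    rw [e, lin_add_int]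
    congr 1
    funext t
    rw [hh]
    congr 1
  have hshift : ∀ (i : Fin n) (x : ℝ) (k : ℤ), lin (h i) (x + k * N) = lin (h i) x := by
    intro i x k
    have e : x + k * N = x + ((k * (n * M) : ℤ) : ℝ) := by push_cast; rfl
    rw [e, lin_add_int]
    congr 1
    funext t
    rw [hh, hh, ← hgk k (t - (i : ℕ) * M)]
    congr 1
    ring
  have htop : ∀ (S : Finset (Fin n)) (x : ℝ), (∀ i ∈ S, ∀ j ∉ S, lin (h j) x < lin (h i) x) ↔
      (Int.fract x ≤ 1 / 2 → ∀ i ∈ S, ∀ j ∉ S, h j ⌊x⌋ < h i ⌊x⌋) ∧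
      (1 / 2 ≤ Int.fract x → ∀ i ∈ S, ∀ j ∉ S, h j (⌊x⌋ + 1) < h i (⌊x⌋ + 1)) := by
    intro S x
    have hne : ∀ i ∈ S, ∀ j ∉ S, i ≠ j := fun i hi j hj e => hj (e ▸ hi)
    constructor
    · intro H
      exact ⟨fun e i hi j hj => ((lin_lt_iff hinj hs (hne i hi j hj) x).1 (H i hi j hj)).1 e,
        fun e i hi j hj => ((lin_lt_iff hinj hs (hne i hi j hj) x).1 (H i hi j hj)).2 e⟩
    · rintro ⟨H1, H2⟩ i hi j hj
      exact (lin_lt_iff hinj hs (hne i hi j hj) x).2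
        ⟨fun e => H1 e i hi j hj, fun e => H2 e i hi j hj⟩
  refine polar n (fun t => lin g (N * t)) ((continuous_lin g).comp (by fun_prop)) ?_
    (fun i t => lin (h i) (N * t)) hψ ?_ ?_ ?_ ?_
  · intro t
    have e : N * (t + 1) = N * t + ((n * M : ℤ) : ℝ) := by push_cast; ring
    simp only
    rw [e, lin_add_int]
    congr 1
    funext t
    exact hper t
  · intro S
    obtain ⟨p, q, hpq, H1, H2⟩ := hcont S
    have hpq' : (p : ℝ) ≤ q := by exact_mod_cast hpq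
    have hlt : ((p : ℝ) - 1 / 2) / N < (q + 1 / 2) / N :=
      div_lt_div_of_pos_right (by linarith) hN0
    refine ⟨{t | (∀ i ∈ S, ∀ j ∉ S, lin (h j) (N * t) < lin (h i) (N * t)) ∧
      t ∈ Icc (((p : ℝ) - 1 / 2) / N) ((q + 1 / 2) / N)}, ?_, fun t ht => ht.1, ?_⟩
    · refine (isConnected_Ioo hlt).subset_closure ?_ ?_
      · intro t ht
        refine ⟨?_, Ioo_subset_Icc_self ht⟩
        obtain ⟨t1, t2⟩ := ht
        rw [div_lt_iff₀ hN0] at t1
        rw [lt_div_iff₀ hN0] at t2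
        have e := Int.floor_add_fract (N * t)
        have f0 := Int.fract_nonneg (N * t)
        have f1 := Int.fract_lt_one (N * t)
        rw [htop]
        constructor
        · intro c
          refine H1 _ ?_ ?_
          · have : (p : ℝ) - 1 < ⌊N * t⌋ := by linarith
            have : p - 1 < ⌊N * t⌋ := by exact_mod_cast this
            omega
          · have : (⌊N * t⌋ : ℝ) < q + 1 := by linarith
            have : ⌊N * t⌋ < q + 1 := by exact_mod_cast this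
            omega
        · intro c
          refine H1 _ ?_ ?_
          · have : (p : ℝ) - 2 < ⌊N * t⌋ := by linarith
            have : p - 2 < ⌊N * t⌋ := by exact_mod_cast this
            omega
          · have : (⌊N * t⌋ : ℝ) < q := by linarith
            have : ⌊N * t⌋ < q := by exact_mod_cast this
            omega
      · rw [closure_Ioo hlt.ne]
        exact fun t ht => ht.2
    · intro t ht
      have e := Int.floor_add_fract (N * t)
      have f0 := Int.fract_nonneg (N * t)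
      have f1 := Int.fract_lt_one (N * t)
      have key : ∃ k : ℤ, (p : ℝ) - 1 / 2 ≤ N * t + k * N ∧ N * t + k * N ≤ q + 1 / 2 := by
        obtain ⟨a1, a2⟩ := (htop S _).1 ht
        rcases le_total (Int.fract (N * t)) (1 / 2) with c | c
        · obtain ⟨k, k1, k2⟩ := H2 _ (a1 c)
          have k1' : (p : ℝ) ≤ ⌊N * t⌋ + k * (n * M) := by exact_mod_cast k1
          have k2' : (⌊N * t⌋ : ℝ) + k * (n * M) ≤ q := by exact_mod_cast k2
          rw [← hN] at k1' k2'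
          exact ⟨k, by linarith, by linarith⟩
        · obtain ⟨k, k1, k2⟩ := H2 _ (a2 c)
          have k1' : (p : ℝ) ≤ ⌊N * t⌋ + 1 + k * (n * M) := by exact_mod_cast k1
          have k2' : (⌊N * t⌋ : ℝ) + 1 + k * (n * M) ≤ q := by exact_mod_cast k2
          rw [← hN] at k1' k2'
          exact ⟨k, by linarith, by linarith⟩
      obtain ⟨k, k1, k2⟩ := key
      refine ⟨k, ?_, ?_, ?_⟩
      · have e : N * (t + k) = N * t + k * N := by ring
        simp only [e, hshift]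
        exact ht
      · rw [div_le_iff₀ hN0]
        linarith
      · rw [le_div_iff₀ hN0]
        linarith
  · intro i j hij
    refine ((Set.finite_Icc (0 : ℤ) (n * M)).image fun k : ℤ => ((k : ℝ) + 1 / 2) / N).subset ?_
    rintro t ⟨t0, t1, e⟩
    obtain ⟨a, b, hs⟩ := hs ⌊N * t⌋
    obtain ⟨e1, -⟩ := lin_eq_imp hinj hs hij e
    refine ⟨⌊N * t⌋, ⟨Int.floor_nonneg.2 (by positivity), ?_⟩, ?_⟩
    · have : (⌊N * t⌋ : ℝ) ≤ ((n * M : ℤ) : ℝ) := by
        push_cast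
        have := Int.floor_le (N * t)
        nlinarith
      exact_mod_cast this
    · simp only
      rw [← e1, Int.floor_add_fract]
      field_simp
  · intro i j k t hij hjk hik e1 e2
    obtain ⟨a, b, hs⟩ := hs ⌊N * t⌋
    obtain ⟨-, c1⟩ := lin_eq_imp hinj hs hij e1
    obtain ⟨-, c2⟩ := lin_eq_imp hinj hs hjk e2
    rcases c1 with ⟨rfl, rfl⟩ | ⟨rfl, rfl⟩
    · rcases c2 with ⟨c, -⟩ | ⟨-, c⟩
      · exact hij c.symm
      · exact hik c.symm
    · rcases c2 with ⟨-, c⟩ | ⟨c, -⟩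
      · exact hik c.symm
      · exact hij c.symm
  · intro i j t hij e
    have := lin_frequently hinj hs hij e
    have hm : map (fun y => N * y) (𝓝 t) = 𝓝 (N * t) :=
      (Homeomorph.mulLeft₀ N hN0.ne').map_nhds_eq t
    rw [← hm, frequently_map] at this
    exact this

end Pool.Agent.Lib.MP_80d9dd_co
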