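import Pool.Agent.Lib.MP_80d9dd_co.Neck
import Pool.Agent.Lib.MP_80d9dd_co.Interp

set_option autoImplicit false

namespace Pool.Agent.Lib.MP_80d9dd_co

theorem ch_iff_idx {l : List ℤ} (hl : l.Nodup) (T : Set ℤ) :
    Ch l T ↔ ∀ a ∈ l, ∀ b ∈ l, a ∈ T → b ∉ T → l.idxOf a < l.idxOf b := by
  induction l with
  | nil => simp
  | cons x l ih =>
    rw [List.nodup_cons] at hl
    rw [ch_cons, ih hl.2]
    have hne : ∀ a ∈ l, x ≠ a := fun a ha e => hl.1 (e ▸ ha)
    constructor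
    · rintro ⟨h1, h2⟩ a ha b hb haT hbT
      rcases List.mem_cons.1 ha with rfl | ha'
      · have : a ≠ b := fun e => hbT (e ▸ haT)
        simp [List.idxOf_cons_ne _ this]
      rcases List.mem_cons.1 hb with rfl | hb'
      · rcases h2 with h2 | h2
        · exact absurd h2 hbT
        · exact absurd haT (h2 a ha')
      rw [List.idxOf_cons_ne _ (hne a ha'), List.idxOf_cons_ne _ (hne b hb')]
      exact Nat.succ_lt_succ (h1 a ha' b hb' haT hbT)
    · intro h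
      refine ⟨fun a ha b hb haT hbT => ?_, ?_⟩
      · have := h a (List.mem_cons_of_mem _ ha) b (List.mem_cons_of_mem _ hb) haT hbT
        rw [List.idxOf_cons_ne _ (hne a ha), List.idxOf_cons_ne _ (hne b hb)] at this
        exact Nat.lt_of_succ_lt_succ this
      · by_cases hx : x ∈ T
        · exact Or.inl hx
        · refine Or.inr fun y hy hyT => ?_
          have := h y (List.mem_cons_of_mem _ hy) x List.mem_cons_self hyT hx
          simp at this

theorem idx_swap (p : List ℤ) (a b : ℤ) (s : List ℤ) (h : (p ++ a :: b :: s).Nodup) :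
    (p ++ a :: b :: s).idxOf b = (p ++ a :: b :: s).idxOf a + 1 ∧
    (p ++ b :: a :: s).idxOf a = (p ++ a :: b :: s).idxOf b ∧
    (p ++ b :: a :: s).idxOf b = (p ++ a :: b :: s).idxOf a ∧
    ∀ c, c ≠ a → c ≠ b → (p ++ b :: a :: s).idxOf c = (p ++ a :: b :: s).idxOf c := by
  induction p with
  | nil =>
    have hab : a ≠ b := by
      rintro rfl
      simp at h
    refine ⟨?_, ?_, ?_, fun c h1 h2 => ?_⟩
    · simp [List.idxOf_cons_ne _ hab]
    · simp [List.idxOf_cons_ne _ hab, List.idxOf_cons_ne _ hab.symm]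
    · simp
    · simp [List.idxOf_cons_ne _ h1.symm, List.idxOf_cons_ne _ h2.symm]
  | cons x p ih =>
    rw [List.cons_append, List.nodup_cons] at h
    have ha : x ≠ a := fun e => h.1 (by simp [e])
    have hb : x ≠ b := fun e => h.1 (by simp [e])
    obtain ⟨h1, h2, h3, h4⟩ := ih h.2
    simp only [List.cons_append, List.idxOf_cons_ne _ ha, List.idxOf_cons_ne _ hb]
    refine ⟨by omega, by omega, by omega, fun c c1 c2 => ?_⟩
    by_cases e : x = c
    · simp [e]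
    · rw [List.idxOf_cons_ne _ e, List.idxOf_cons_ne _ e, h4 c c1 c2]

theorem nodup_rng (x : ℤ) (k : ℕ) : (rng x k).Nodup := by
  induction k generalizing x with
  | zero => simp [rng_zero]
  | succ k ih =>
    rw [rng_succ, List.nodup_cons]
    exact ⟨fun h => by have := (mem_rng.1 h).1; omega, ih _⟩

theorem idx_rng {x y : ℤ} {k : ℕ} (h1 : x ≤ y) (h2 : y < x + k) :
    ((rng x k).idxOf y : ℤ) = y - x := by
  induction k generalizing x with
  | zero => simp at h2; omega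
  | succ k ih =>
    rw [rng_succ]
    by_cases e : x = y
    · simp [e]
    · rw [List.idxOf_cons_ne _ e]
      push_cast at h2 ⊢
      rw [ih (by omega) (by omega)]
      ring

theorem Adj.perm {α : Type*} {l l' : List α} (h : Adj l l') : l.Perm l' := by
  obtain ⟨p, a, b, s, rfl, rfl⟩ := h
  exact List.Perm.append_left p (List.Perm.swap b a s)

/-- The periodic wiring diagram for an odd prime. -/
theorem wires_odd (n q : ℕ) (hp : n.Prime) (hq : n = 2 * q + 3) :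
    ∃ (M : ℕ) (g : ℤ → ℤ) (h : Fin n → ℤ → ℤ), 0 < M ∧ (∀ t, g (t + n * M) = g t) ∧
      (∀ i t, h i t = g (t - (i : ℕ) * M)) ∧ (∀ t i j, h i t = h j t → i = j) ∧
      (∀ t, ∃ a b, Step h t a b) ∧
      ∀ S : Finset (Fin n), ∃ p q : ℤ, p ≤ q ∧
        (∀ t, p ≤ t → t ≤ q → ∀ i ∈ S, ∀ j ∉ S, h j t < h i t) ∧
        ∀ t, (∀ i ∈ S, ∀ j ∉ S, h j t < h i t) →
          ∃ k : ℤ, p ≤ t + k * (n * M) ∧ t + k * (n * M) ≤ q := by
  have hnq : (n : ℤ) = 2 * q + 3 := by exact_mod_cast hq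
  have hn0 : (0 : ℤ) < n := by omega
  have hodd : (n : ℤ) % 2 = 1 := by omega
  obtain ⟨hsw, hstart⟩ := sweep_sector (V := Val n) (m := (n : ℤ) - 2) (val_closed hn0) q
    (by omega)
  rw [← hq] at hsw hstart
  obtain ⟨M, f, f0, fM, fa, fQ, fc⟩ := hsw.walk
  have hM : 0 < M := by
    rcases Nat.eq_zero_or_pos M with h0 | h0
    · subst h0
      rw [f0, hq, rng_succ] at fM
      have := List.head_eq_of_cons_eq fM
      omega
    · exact h0
  have hM' : (0 : ℤ) < M := by exact_mod_cast hM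
  have hperm : ∀ r, r ≤ M → (rng 0 n).Perm (f r) := by
    intro r
    induction r with
    | zero => intro _; rw [f0]
    | succ r ih => intro hr; exact (ih (by omega)).trans (fa r (by omega)).perm
  have hnd : ∀ r, r ≤ M → (f r).Nodup := fun r hr => (hperm r hr).nodup_iff.1 (nodup_rng _ _)
  have hmem : ∀ r, r ≤ M → ∀ y, y ∈ f r ↔ 0 ≤ y ∧ y < n := by
    intro r hr y
    rw [← (hperm r hr).mem_iff, mem_rng, zero_add]
  have hcop : IsCoprime (n : ℤ) 2 := ⟨1, -(q + 1), by rw [hnq]; ring⟩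
  let w : Fin n → ℤ → ℤ := fun i Q => (2 * (Q - (i : ℕ))) % n
  have hw0 : ∀ i Q, 0 ≤ w i Q ∧ w i Q < n := fun i Q =>
    ⟨Int.emod_nonneg _ hn0.ne', Int.emod_lt_of_pos _ hn0⟩
  have hfin : ∀ i j : Fin n, (n : ℤ) ∣ 2 * (((i : ℕ) : ℤ) - (j : ℕ)) → i = j := by
    intro i j hd
    have hd' := hcop.dvd_of_dvd_mul_left hd
    have a1 := i.2
    have a2 := j.2
    have := Int.eq_zero_of_abs_lt_dvd hd' (by rw [abs_lt]; constructor <;> omega)
    exact Fin.ext (by omega)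
  have hwinj : ∀ Q i j, w i Q = w j Q → i = j := by
    intro Q i j e
    have := Int.ModEq.dvd (n := n) e
    refine hfin i j ?_
    rwa [show 2 * (Q - ((j : ℕ) : ℤ)) - 2 * (Q - (i : ℕ)) = 2 * (((i : ℕ) : ℤ) - (j : ℕ)) by ring]
      at this
  have hwsurj : ∀ Q y : ℤ, 0 ≤ y → y < n → ∃ i, w i Q = y := by
    intro Q y h0 h1
    obtain ⟨k, c, a0, a1, e⟩ := exists_red hn0 (Q - y * (q + 2))
    refine ⟨⟨k.toNat, by omega⟩, ?_⟩
    have e1 : ((k.toNat : ℕ) : ℤ) = k := by omega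
    simp only [w, e1]
    have : 2 * (Q - k) = y + n * (y + 2 * c) := by
      rw [show Q - k = y * (q + 2) + n * c by omega, hnq]
      ring
    rw [this, Int.add_mul_emod_self_left, Int.emod_eq_of_lt h0 h1]
  let g : ℤ → ℤ := fun t => -((f (t % M).toNat).idxOf ((2 * (t / M)) % n) : ℤ)
  have hg : ∀ (i : Fin n) (Q : ℤ) (r : ℕ), r ≤ M →
      g (Q * M + r - (i : ℕ) * M) = -((f r).idxOf (w i Q) : ℤ) := by
    have h1 : ∀ (i : Fin n) (Q : ℤ) (r : ℕ), r < M →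
        g (Q * M + r - (i : ℕ) * M) = -((f r).idxOf (w i Q) : ℤ) := by
      intro i Q r hr
      have e : Q * M + r - (i : ℕ) * M = r + M * (Q - (i : ℕ)) := by ring
      have hr' : (r : ℤ) < M := by exact_mod_cast hr
      simp only [g, w]
      rw [e, Int.add_mul_emod_self_left, Int.add_mul_ediv_left _ _ hM'.ne',
        Int.emod_eq_of_lt (by omega) hr', Int.ediv_eq_zero_of_lt (by omega) hr', zero_add,
        Int.toNat_natCast]
    intro i Q r hr
    rcases hr.lt_or_eq with hr | rfl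
    · exact h1 i Q r hr
    have e : Q * r + r - (i : ℕ) * r = (Q + 1) * r + (0 : ℕ) - (i : ℕ) * r := by
      push_cast
      ring
    rw [e, h1 i (Q + 1) 0 hM, f0, fM, idx_rng (hw0 _ _).1 (by simpa using (hw0 _ _).2)]
    have e2 : w i (Q + 1) = (w i Q + 2) % n := by
      simp only [w]
      rw [Int.emod_add_emod]
      congr 1
      ring
    rw [e2]
    obtain ⟨b0, b1⟩ := hw0 i Q
    generalize w i Q = y at b0 b1
    by_cases c1 : y = n - 2
    · rw [c1]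
      simp
    have c1' : (n : ℤ) - 2 ≠ y := fun e => c1 e.symm
    rw [List.idxOf_cons_ne _ c1']
    by_cases c2 : y = n - 2 + 1
    · rw [c2, List.idxOf_cons_self, show (n : ℤ) - 2 + 1 + 2 = 1 + n * 1 by ring,
        Int.add_mul_emod_self_left, Int.emod_eq_of_lt (by omega) (by omega)]
      simp
    have c2' : (n : ℤ) - 2 + 1 ≠ y := fun e => c2 e.symm
    rw [List.idxOf_cons_ne _ c2', Int.emod_eq_of_lt (by omega) (by omega)]
    push_cast
    rw [idx_rng b0 (by push_cast; omega)]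
    ring
  have hdec : ∀ t : ℤ, ∃ (Q : ℤ) (r : ℕ), r < M ∧ t = Q * M + r := by
    intro t
    obtain ⟨k, c, a0, a1, e⟩ := exists_red hM' t
    exact ⟨c, k.toNat, by omega, by rw [e, Int.toNat_of_nonneg a0]; ring⟩
  refine ⟨M, g, fun i t => g (t - (i : ℕ) * M), hM, ?_, fun _ _ => rfl, ?_, ?_, ?_⟩
  · intro t
    simp only [g]
    rw [show t + n * M = t + M * n by ring, Int.add_mul_emod_self_left,
      Int.add_mul_ediv_left _ _ hM'.ne', show 2 * (t / M + n) = 2 * (t / M) + n * 2 by ring,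
      Int.add_mul_emod_self_left]
  · intro t i j e
    obtain ⟨Q, r, hr, rfl⟩ := hdec t
    simp only [hg _ _ _ hr.le, neg_inj, Nat.cast_inj] at e
    exact hwinj Q i j ((List.idxOf_inj ((hmem r hr.le _).2 (hw0 i Q))).1 e)
  · intro t
    obtain ⟨Q, r, hr, rfl⟩ := hdec t
    obtain ⟨p, a, b, s, e1, e2⟩ := fa r hr
    obtain ⟨a0, a1⟩ := (hmem r hr.le a).1 (by simp [e1])
    obtain ⟨b0, b1⟩ := (hmem r hr.le b).1 (by simp [e1])
    obtain ⟨i, hi⟩ := hwsurj Q a a0 a1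
    obtain ⟨j, hj⟩ := hwsurj Q b b0 b1
    obtain ⟨s1, s2, s3, s4⟩ := idx_swap p a b s (e1 ▸ hnd r hr.le)
    have e3 : Q * M + r + 1 = Q * M + ((r + 1 : ℕ) : ℤ) := by push_cast; ring
    refine ⟨i, j, ?_⟩
    simp only [Step, e3, hg _ _ _ hr.le, hg _ _ (r + 1) hr, hi, hj, e1, e2]
    refine ⟨by rw [s1]; push_cast; ring, by rw [s2], by rw [s3], fun c c1 c2 => ?_⟩
    rw [s4 _ (fun e => c1 (hwinj Q _ _ (e.trans hi.symm)))
      (fun e => c2 (hwinj Q _ _ (e.trans hj.symm)))]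
  intro S
  have hN : (0 : ℤ) < n * M := by positivity
  by_cases htriv : ∀ i ∈ S, ∀ j, j ∈ S
  · refine ⟨0, n * M - 1, by omega, fun t _ _ i hi j hj => absurd (htriv i hi j) hj, fun t _ => ?_⟩
    obtain ⟨k, c, a0, a1, e⟩ := exists_red hN t
    refine ⟨-c, ?_, ?_⟩ <;> rw [show t + -c * (n * M) = k by rw [e]; ring] <;> omega
  push Not at htriv
  obtain ⟨i₀, hi₀, j₀, hj₀⟩ := htriv
  let T : Set ℤ := {y | ∃ i ∈ S, (n : ℤ) ∣ y + 2 * (i : ℕ)}
  have hT : Per n T := by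
    intro y c
    refine exists_congr fun i => and_congr Iff.rfl ?_
    rw [show y + n * c + 2 * ((i : ℕ) : ℤ) = n * c + (y + 2 * (i : ℕ)) by ring]
    exact dvd_add_right (dvd_mul_right _ _)
  have hwT : ∀ i Q, w i Q ∈ sh (-2 * Q) T ↔ i ∈ S := by
    intro i Q
    rw [mem_sh]
    have e : w i Q + -2 * Q = -2 * (i : ℕ) + n * (-(2 * (Q - (i : ℕ)) / n)) := by
      have := Int.emod_add_mul_ediv (2 * (Q - (i : ℕ))) n
      simp only [w]
      linarith
    rw [e, hT]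
    constructor
    · rintro ⟨j, hj, hd⟩
      rwa [← hfin j i (by rwa [show 2 * (((j : ℕ) : ℤ) - (i : ℕ)) = -2 * (i : ℕ) + 2 * (j : ℕ)
        by ring])]
    · intro hi
      exact ⟨i, hi, by simp⟩
  let top : ℤ → Prop := fun t => ∀ i ∈ S, ∀ j ∉ S, g (t - (j : ℕ) * M) < g (t - (i : ℕ) * M)
  have htop : ∀ (Q : ℤ) (r : ℕ), r ≤ M → (top (Q * M + r) ↔ Ch (f r) (sh (-2 * Q) T)) := by
    intro Q r hr
    rw [ch_iff_idx (hnd r hr)]
    simp only [top, hg _ _ _ hr, neg_lt_neg_iff, Nat.cast_lt]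
    constructor
    · intro H a ha b hb haT hbT
      obtain ⟨a0, a1⟩ := (hmem r hr a).1 ha
      obtain ⟨b0, b1⟩ := (hmem r hr b).1 hb
      obtain ⟨i, rfl⟩ := hwsurj Q a a0 a1
      obtain ⟨j, rfl⟩ := hwsurj Q b b0 b1
      exact H i ((hwT _ _).1 haT) j (fun h => hbT ((hwT _ _).2 h))
    · intro H i hi j hj
      exact H _ ((hmem r hr _).2 (hw0 i Q)) _ ((hmem r hr _).2 (hw0 j Q)) ((hwT _ _).2 hi)
        (fun h => hj ((hwT _ _).1 h))
  have hrep0 : ∀ Q : ℤ, top (Q * M) → Rep (Val n) (n - 2) (sh (-2 * Q) T) := by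
    intro Q H
    have := (htop Q 0 (Nat.zero_le _)).1 (by simpa using H)
    rw [f0] at this
    rcases hstart _ this with h | h | h
    · exact h
    · exact absurd ((hwT _ _).1 (h _ (mem_rng.2 (by simpa using hw0 j₀ Q)))) hj₀
    · exact absurd ((hwT _ _).2 hi₀) (h _ (mem_rng.2 (by simpa using hw0 i₀ Q)))
  have hcase : ∀ (Q : ℤ) (r : ℕ), r ≤ M → top (Q * M + r) →
      Rep (Val n) (n - 2) (sh (-2 * Q) T) ∨ top ((Q + 1) * M) := by
    intro Q r hr H
    rcases (fQ _).2 ⟨r, hr, (htop Q r hr).1 H⟩ with h | h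
    · exact Or.inl h
    · right
      rw [← fM, ← htop Q M le_rfl] at h
      rwa [add_one_mul]
  have huniq : ∀ Q Q' : ℤ, Rep (Val n) (n - 2) (sh (-2 * Q) T) →
      Rep (Val n) (n - 2) (sh (-2 * Q') T) → (n : ℤ) ∣ Q - Q' := by
    intro Q Q' h1 h2
    have := rep_unique hp hodd hT h1 h2
    rw [show -2 * Q' - -2 * Q = 2 * (Q - Q') by ring] at this
    exact hcop.dvd_of_dvd_mul_left this
  obtain ⟨Q₀, hQ₀⟩ : ∃ Q : ℤ, Rep (Val n) (n - 2) (sh (-2 * Q) T) := by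
    obtain ⟨k, hk⟩ := exists_rep (by omega) hodd hT ((hwT i₀ 0).2 hi₀)
      (fun h => hj₀ ((hwT j₀ 0).1 h))
    refine ⟨-k * (q + 2), ?_⟩
    rw [show -2 * (-k * (q + 2)) = k + n * k by rw [hnq]; ring, ← sh_sh, hT.sh_mul]
    exact hk
  have hsec : ∀ (Q t₁ t₂ t₃ : ℤ), Q * M ≤ t₁ → t₁ ≤ t₂ → t₂ ≤ t₃ → t₃ ≤ Q * M + M →
      top t₁ → top t₃ → top t₂ := by
    intro Q t₁ t₂ t₃ a0 a1 a2 a3 H1 H3
    obtain ⟨r₁, rfl⟩ : ∃ r : ℕ, t₁ = Q * M + r := ⟨(t₁ - Q * M).toNat, by omega⟩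
    obtain ⟨r₂, rfl⟩ : ∃ r : ℕ, t₂ = Q * M + r := ⟨(t₂ - Q * M).toNat, by omega⟩
    obtain ⟨r₃, rfl⟩ : ∃ r : ℕ, t₃ = Q * M + r := ⟨(t₃ - Q * M).toNat, by omega⟩
    rw [htop _ _ (by omega)] at H1 H3 ⊢
    exact fc _ r₁ r₂ r₃ (by omega) (by omega) (by omega) H1 H3
  have hex : ∃ t, (Q₀ * M - M ≤ t ∧ t ≤ Q₀ * M + M) ∧ top t := by
    obtain ⟨r, hr, H⟩ := (fQ _).1 (Or.inl hQ₀)
    exact ⟨Q₀ * M + r, ⟨by omega, by omega⟩, (htop Q₀ r hr).2 H⟩
  obtain ⟨p₁, ⟨p1, p2⟩, pmin⟩ := Int.exists_least_of_bdd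
    (P := fun t => (Q₀ * M - M ≤ t ∧ t ≤ Q₀ * M + M) ∧ top t) ⟨_, fun z hz => hz.1.1⟩ hex
  obtain ⟨p₂, ⟨q1, q2⟩, qmax⟩ := Int.exists_greatest_of_bdd
    (P := fun t => (Q₀ * M - M ≤ t ∧ t ≤ Q₀ * M + M) ∧ top t) ⟨_, fun z hz => hz.1.2⟩ hex
  have e1 : (Q₀ - 1) * M = Q₀ * M - M := by ring
  refine ⟨p₁, p₂, pmin _ ⟨q1, q2⟩, fun t t1 t2 => ?_, fun t H => ?_⟩
  · change top t
    by_cases c : Q₀ * M ≤ p₁
    · exact hsec Q₀ p₁ t p₂ c t1 t2 q1.2 p2 q2
    have hmid : top (Q₀ * M) := by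
      obtain ⟨r, hr⟩ : ∃ r : ℕ, p₁ = (Q₀ - 1) * M + r := ⟨(p₁ - (Q₀ - 1) * M).toNat, by omega⟩
      rcases hcase (Q₀ - 1) r (by omega) (hr ▸ p2) with h | h
      · have := huniq _ _ hQ₀ h
        rw [sub_sub_cancel] at this
        have := Int.le_of_dvd one_pos this
        omega
      · rwa [sub_add_cancel] at h
    by_cases c' : t ≤ Q₀ * M
    · exact hsec (Q₀ - 1) p₁ t (Q₀ * M) (by omega) t1 c' (by omega) p2 hmid
    · exact hsec Q₀ (Q₀ * M) t p₂ le_rfl (by omega) t2 q1.2 hmid q2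
  · change top t at H
    obtain ⟨Q, r, hr, rfl⟩ := hdec t
    have hshift : ∀ k : ℤ, top ((Q + n * k) * M + r) := by
      intro k
      rw [htop _ _ hr.le] at H ⊢
      rwa [show -2 * (Q + n * k) = -2 * Q + n * (-2 * k) by ring, ← sh_sh, hT.sh_mul]
    have fin : ∀ k : ℤ, Q₀ - 1 ≤ Q + n * k → Q + n * k ≤ Q₀ →
        ∃ k : ℤ, p₁ ≤ Q * M + r + k * (n * M) ∧ Q * M + r + k * (n * M) ≤ p₂ := by
      intro k k1 k2
      have e : Q * M + r + k * (n * M) = (Q + n * k) * M + r := by ring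
      have b1 : (Q₀ - 1) * M ≤ (Q + n * k) * M := mul_le_mul_of_nonneg_right k1 hM'.le
      have b2 : (Q + n * k) * M ≤ Q₀ * M := mul_le_mul_of_nonneg_right k2 hM'.le
      refine ⟨k, ?_, ?_⟩ <;> rw [e]
      · exact pmin _ ⟨⟨by omega, by omega⟩, hshift k⟩
      · exact qmax _ ⟨⟨by omega, by omega⟩, hshift k⟩
    rcases hcase Q r hr.le H with h | h
    · obtain ⟨k, hk⟩ := huniq _ _ hQ₀ h
      exact fin k (by omega) (by omega)
    · obtain ⟨k, hk⟩ := huniq _ _ hQ₀ (hrep0 _ h)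
      exact fin k (by omega) (by omega)

/-- The periodic wiring diagram for two curves. -/
theorem wires_two :
    ∃ (M : ℕ) (g : ℤ → ℤ) (h : Fin 2 → ℤ → ℤ), 0 < M ∧ (∀ t, g (t + (2 : ℕ) * M) = g t) ∧
      (∀ i t, h i t = g (t - (i : ℕ) * M)) ∧ (∀ t i j, h i t = h j t → i = j) ∧
      (∀ t, ∃ a b, Step h t a b) ∧
      ∀ S : Finset (Fin 2), ∃ p q : ℤ, p ≤ q ∧
        (∀ t, p ≤ t → t ≤ q → ∀ i ∈ S, ∀ j ∉ S, h j t < h i t) ∧
        ∀ t, (∀ i ∈ S, ∀ j ∉ S, h j t < h i t) →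
          ∃ k : ℤ, p ≤ t + k * ((2 : ℕ) * M) ∧ t + k * ((2 : ℕ) * M) ≤ q := by
  refine ⟨1, fun t => t % 2, fun i t => (t - (i : ℕ) * (1 : ℕ)) % 2, one_pos, ?_, fun _ _ => rfl,
    ?_, ?_, ?_⟩
  · intro t
    push_cast
    omega
  · intro t i j
    fin_cases i <;> fin_cases j <;> simp <;> omega
  · intro t
    by_cases ht : t % 2 = 0
    · refine ⟨1, 0, ?_, ?_, ?_, ?_⟩
      · simp; omega
      · simp
      · simp; omega
      · intro c c1 c2
        fin_cases c <;> simp at c1 c2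
    · refine ⟨0, 1, ?_, ?_, ?_, ?_⟩
      · simp; omega
      · simp; omega
      · simp
      · intro c c1 c2
        fin_cases c <;> simp at c1 c2
  · intro S
    by_cases h0 : (0 : Fin 2) ∈ S <;> by_cases h1 : (1 : Fin 2) ∈ S
    · refine ⟨0, 1, by omega, fun t _ _ i _ j hj => ?_, fun t _ => ⟨-(t / 2), ?_, ?_⟩⟩
      · fin_cases j
        · exact absurd h0 hj
        · exact absurd h1 hj
      · push_cast; omega
      · push_cast; omega
    · refine ⟨1, 1, le_rfl, fun t t1 t2 i hi j hj => ?_, fun t H => ⟨-(t / 2), ?_⟩⟩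
      · obtain rfl : t = 1 := by omega
        fin_cases i <;> fin_cases j <;> simp_all
      · have := H 0 h0 1 h1
        simp at this
        push_cast
        omega
    · refine ⟨0, 0, le_rfl, fun t t1 t2 i hi j hj => ?_, fun t H => ⟨-(t / 2), ?_⟩⟩
      · obtain rfl : t = 0 := by omega
        fin_cases i <;> fin_cases j <;> simp_all
      · have := H 1 h1 0 h0
        simp at this
        push_cast
        omega
    · refine ⟨0, 1, by omega, fun t _ _ i hi j _ => ?_, fun t _ => ⟨-(t / 2), ?_, ?_⟩⟩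
      · fin_cases i
        · exact absurd hi h0
        · exact absurd hi h1
      · push_cast; omega
      · push_cast; omega

end Pool.Agent.Lib.MP_80d9dd_co
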