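import Pool.Agent.Lib.MP_80d9dd_co.Build

set_option autoImplicit false
set_option linter.unusedSimpArgs false

namespace Pool.Agent.Lib.MP_80d9dd_co

/-- Periodic sets of integers. -/
def Per (n : ℤ) (Z : Set ℤ) : Prop := ∀ y c : ℤ, y + n * c ∈ Z ↔ y ∈ Z

/-- Shift of a set of integers. -/
def sh (k : ℤ) (Z : Set ℤ) : Set ℤ := {y | y + k ∈ Z}

/-- Periodic extension of a set of residues. -/
def per (n : ℤ) (H : Set ℤ) : Set ℤ := {y | y % n ∈ H}

/-- The `g` places before `k` are free. -/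
def Free (Z : Set ℤ) (k g : ℤ) : Prop := ∀ y, k - g ≤ y → y < k → y ∉ Z

/-- A longest gap ends at `0`. -/
def Adm (Z : Set ℤ) : Prop := 0 ∈ Z ∧ ∀ k g, Free Z k g → Free Z 0 g

/-- The chosen rotation of a periodic set. -/
def Good (Z : Set ℤ) : Prop := Adm Z ∧ ∀ k, Adm (sh k Z) → ¬ WellOrderingRel (sh k Z) Z

/-- An odd block starts at `z`. -/
def IsZ (S : Set ℤ) (z : ℤ) : Prop := Bd S z ∧ FirstOdd S z

/-- The allowed pieces. -/
def Val (n : ℤ) (H : Set ℤ) (u v : ℤ) : Prop :=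
  0 ∈ H ∧ (∀ y ∈ H, 0 ≤ y ∧ y < u) ∧ v < n ∧ Good (per n (insert v (insert u H)))

variable {n : ℤ}

theorem mem_sh {k y : ℤ} {Z : Set ℤ} : y ∈ sh k Z ↔ y + k ∈ Z := Iff.rfl

theorem sh_sh (k k' : ℤ) (Z : Set ℤ) : sh k (sh k' Z) = sh (k + k') Z := by
  ext y
  simp [mem_sh, add_assoc]

theorem sh_zero (Z : Set ℤ) : sh 0 Z = Z := by
  ext y
  simp [mem_sh]

theorem Per.sh {Z : Set ℤ} (h : Per n Z) (k : ℤ) : Per n (sh k Z) := by
  intro y c
  rw [mem_sh, mem_sh, show y + n * c + k = y + k + n * c by ring, h]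

theorem Per.sh_mul {Z : Set ℤ} (h : Per n Z) (c : ℤ) :
    Pool.Agent.Lib.MP_80d9dd_co.sh (n * c) Z = Z := by
  ext y
  exact h y c

theorem per_per (H : Set ℤ) : Per n (per n H) := by
  intro y c
  simp [per]

theorem mem_per {H : Set ℤ} {y : ℤ} (h0 : 0 ≤ y) (h1 : y < n) : y ∈ per n H ↔ y ∈ H := by
  simp [per, Int.emod_eq_of_lt h0 h1]

theorem exists_red (hn : 0 < n) (k : ℤ) : ∃ k₀ c, 0 ≤ k₀ ∧ k₀ < n ∧ k = k₀ + n * c :=
  ⟨k % n, k / n, Int.emod_nonneg _ hn.ne', Int.emod_lt_of_pos _ hn,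
    (Int.emod_add_mul_ediv k n).symm⟩

theorem Per.ext (hn : 0 < n) {Z Z' : Set ℤ} (h : Per n Z) (h' : Per n Z')
    (e : ∀ y, 0 ≤ y → y < n → (y ∈ Z ↔ y ∈ Z')) : Z = Z' := by
  ext y
  obtain ⟨k, c, h0, h1, rfl⟩ := exists_red hn y
  rw [h, h', e k h0 h1]

theorem Per.free {Z : Set ℤ} (h : Per n Z) {k c g : ℤ} (hf : Free Z (k + n * c) g) :
    Free Z k g := by
  intro y h1 h2 hy
  exact hf (y + n * c) (by omega) (by omega) ((h y c).2 hy)

theorem free_sh {Z : Set ℤ} {k k' g : ℤ} : Free (sh k Z) k' g ↔ Free Z (k' + k) g := by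
  constructor
  · intro h y h1 h2 hy
    exact h (y - k) (by omega) (by omega) (by simpa [mem_sh] using hy)
  · intro h y h1 h2 hy
    exact h (y + k) (by omega) (by omega) hy

theorem good_of_longer (hn : 0 < n) {Z Z' : Set ℤ} (hZ : Per n Z) (hZ' : Per n Z') (hA : Adm Z)
    {v v' : ℤ} (hv : v ∈ Z) (h0 : 0 ≤ v') (hvv : v' < v) (hvn : v < n) (h0' : (0 : ℤ) ∈ Z')
    (hv' : v' ∈ Z') (hlast : ∀ y, v' < y → y < n → y ∉ Z')
    (hag : ∀ y, 0 ≤ y → y < v' → y ∈ Z → y ∈ Z') : Good Z' := by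
  have hno : ∀ k, ¬ Free Z k (n - v) := by
    intro k hk
    refine hA.2 k _ hk (v + n * (-1)) (by omega) (by omega) ((hZ v (-1)).2 hv)
  have hF0 : ∀ g, g ≤ n - v' - 1 → Free Z' 0 g := by
    intro g hg y h1 h2 hy
    exact hlast (y + n * 1) (by omega) (by omega) ((hZ' y 1).2 hy)
  have key : ∀ k g, 0 < k → k ≤ v' → n - v ≤ g → ¬ Free Z' k g := by
    intro k g hk1 hk2 hg hf
    have : g < k := by
      by_contra hc
      exact hf 0 (by omega) hk1 h0'
    exact hno k fun y h1 h2 hy => hf y (by omega) h2 (hag y (by omega) (by omega) hy)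
  refine ⟨⟨h0', fun k g hf => ?_⟩, fun k hk => ?_⟩
  · obtain ⟨k₀, c, a0, a1, rfl⟩ := exists_red hn k
    have hf := hZ'.free hf
    by_cases hg : g ≤ n - v' - 1
    · exact hF0 g hg
    by_cases hk0 : k₀ = 0
    · exact hk0 ▸ hf
    exfalso
    by_cases hk1 : k₀ ≤ v'
    · exact key k₀ g (by omega) hk1 (by omega) hf
    · exact hf v' (by omega) (by omega) hv'
  · obtain ⟨k₀, c, a0, a1, rfl⟩ := exists_red hn k
    have hk0 : k₀ ∈ Z' := by
      have := hk.1
      rw [mem_sh, zero_add, hZ'] at this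
      exact this
    have hf : Free Z' k₀ (n - v) := by
      have := hk.2 (-(k₀ + n * c)) (n - v) (by
        rw [free_sh, neg_add_cancel]
        exact hF0 _ (by omega))
      rw [free_sh, zero_add] at this
      exact hZ'.free this
    have : k₀ = 0 := by
      by_contra hc
      have : k₀ ≤ v' := by
        by_contra hc'
        exact hlast k₀ (by omega) a1 hk0
      exact key k₀ _ (by omega) this le_rfl hf
    subst this
    rw [zero_add, hZ'.sh_mul]
    exact irrefl _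

theorem exists_good (hn : 0 < n) {Z : Set ℤ} (hZ : Per n Z) (hne : Z.Nonempty) :
    ∃ k, Good (sh k Z) := by
  have hadm : ∃ k, Adm (sh k Z) := by
    obtain ⟨g, ⟨k, hk⟩, hmax⟩ := Int.exists_greatest_of_bdd (P := fun g => ∃ k, Free Z k g)
      ⟨n, fun g ⟨k, hk⟩ => by
        by_contra hc
        obtain ⟨z, hz⟩ := hne
        obtain ⟨y, c, a0, a1, e⟩ := exists_red hn (z - k)
        refine hk (k + y + n * (-1)) (by omega) (by omega) ((hZ _ _).2 ?_)
        rw [← hZ _ c]
        rwa [show k + y + n * c = z by omega]⟩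
      ⟨0, 0, fun y h1 h2 => by omega⟩
    refine ⟨k, ?_, fun k' g' hf => ?_⟩
    · rw [mem_sh, zero_add]
      by_contra hc
      have := hmax (g + 1) ⟨k + 1, fun y h1 h2 hy => by
        by_cases e : y = k
        · exact hc (e ▸ hy)
        · exact hk y (by omega) (by omega) hy⟩
      omega
    · rw [free_sh] at hf
      have := hmax g' ⟨_, hf⟩
      rw [free_sh, zero_add]
      exact fun y h1 h2 => hk y (by omega) h2
  obtain ⟨A, ⟨k, rfl, hk⟩, hmin⟩ := (WellOrderingRel.isWellOrder (α := Set ℤ)).wf.has_min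
    {A | ∃ k, sh k Z = A ∧ Adm A} (by obtain ⟨k, hk⟩ := hadm; exact ⟨_, k, rfl, hk⟩)
  refine ⟨k, hk, fun k' hk' => hmin _ ⟨k' + k, ?_, hk'⟩⟩
  rw [sh_sh]

theorem Good.unique {Z : Set ℤ} {k : ℤ} (h : Good Z) (h' : Good (sh k Z)) : sh k Z = Z := by
  rcases trichotomous_of (WellOrderingRel (α := Set ℤ)) (sh k Z) Z with a | a | a
  · exact absurd a (h.2 k h'.1)
  · exact a
  · have e : sh (-k) (sh k Z) = Z := by rw [sh_sh, neg_add_cancel, sh_zero]
    exact absurd (e.symm ▸ a) (h'.2 (-k) (e.symm ▸ h.1))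

theorem dvd_of_sh_eq {p : ℕ} (hp : p.Prime) {Z : Set ℤ} (hZ : Per p Z) {k : ℤ}
    (h : sh k Z = Z) (h0 : (0 : ℤ) ∈ Z) (h1 : (1 : ℤ) ∉ Z) : (p : ℤ) ∣ k := by
  by_contra hc
  have hcop : IsCoprime (p : ℤ) k :=
    (Nat.prime_iff_prime_int.1 hp).irreducible.coprime_iff_not_dvd.2 hc
  obtain ⟨a, b, hab⟩ := hcop
  have hk : ∀ y, y + k ∈ Z ↔ y ∈ Z := fun y => by rw [← mem_sh, h]
  have hk' : ∀ c y : ℤ, y + k * c ∈ Z ↔ y ∈ Z := by
    intro c
    induction c using Int.induction_on with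
    | zero => simp
    | succ c ih => intro y; rw [mul_add, mul_one, ← add_assoc, hk, ih]
    | pred c ih =>
      intro y
      rw [← hk, show y + k * (-(c : ℤ) - 1) + k = y + k * (-(c : ℤ)) by ring, ih]
  apply h1
  rw [show (1 : ℤ) = 0 + p * a + k * b by rw [← hab]; ring, hk', hZ]
  exact h0

theorem val_closed (hn : 0 < n) (H : Set ℤ) (u v : ℤ) (h : Val n H u v) (huv : u + 5 ≤ v) :
    Val n H u (v - 2) := by
  obtain ⟨h0, hH, hvn, hG⟩ := h
  have hu : 0 < u := (hH 0 h0).2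
  refine ⟨h0, hH, by omega, good_of_longer hn (per_per _) (per_per _) hG.1 (v := v) (v' := v - 2)
    ?_ (by omega) (by omega) hvn ?_ ?_ ?_ ?_⟩
  · rw [mem_per (by omega) hvn]; simp
  · rw [mem_per le_rfl hn]; simp [h0]
  · rw [mem_per (by omega) (by omega)]; simp
  · intro y h1 h2
    rw [mem_per (by omega) h2]
    rintro (e | e | e)
    · omega
    · omega
    · have := hH y e
      omega
  · intro y h1 h2
    rw [mem_per h1 (by omega), mem_per h1 (by omega)]
    rintro (e | e | e)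
    · omega
    · exact Or.inr (Or.inl e)
    · exact Or.inr (Or.inr e)

variable {S : Set ℤ}

theorem bd_sh {k w : ℤ} : Bd (sh k S) w ↔ Bd S (w + k) := by
  simp only [Bd, mem_sh]
  rw [show w - 1 + k = w + k - 1 by ring]

theorem isZ_sh {k z : ℤ} : IsZ (sh k S) z ↔ IsZ S (z + k) := by
  simp only [IsZ, FirstOdd, bd_sh]
  refine and_congr Iff.rfl ⟨?_, ?_⟩
  · rintro ⟨w, h1, h2, h3⟩
    refine ⟨w + k, by omega, h2, fun w' a1 a2 a3 => ?_⟩
    have := h3 (w' - k) (by omega) (by omega) (by simpa using a3)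
    omega
  · rintro ⟨w, h1, h2, h3⟩
    refine ⟨w - k, by omega, by simpa using h2, fun w' a1 a2 a3 => ?_⟩
    have := h3 (w' + k) (by omega) (by omega) a3
    omega

theorem zs_sh (k : ℤ) : {z | IsZ (sh k S) z} = sh k {z | IsZ S z} := by
  ext z
  exact isZ_sh

theorem Per.zs (h : Per n S) : Per n {z | IsZ S z} := by
  intro y c
  change IsZ S (y + n * c) ↔ IsZ S y
  rw [← isZ_sh, h.sh_mul]

theorem even_of_noZ {b Y : ℤ} (hb : Bd S b) (hno : ∀ y, b ≤ y → y < Y → ¬ IsZ S y) :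
    ∀ w, b ≤ w → w ≤ Y → Bd S w → (w - b) % 2 = 0 := by
  have : ∀ d : ℕ, ∀ w, w - b ≤ d → b ≤ w → w ≤ Y → Bd S w → (w - b) % 2 = 0 := by
    intro d
    induction d with
    | zero => intro w h1 h2 _ _; omega
    | succ d ih =>
      intro w h1 h2 h3 hw
      by_cases e : w = b
      · omega
      obtain ⟨w', ⟨a1, a2, a3⟩, hmax⟩ :=
        Int.exists_greatest_of_bdd (P := fun x => b ≤ x ∧ x < w ∧ Bd S x)
          ⟨w, fun z hz => hz.2.1.le⟩ ⟨b, le_rfl, by omega, hb⟩
      have h4 := ih w' (by push_cast at h1; omega) a1 (by omega) a3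
      by_contra hc
      refine hno w' a1 (by omega) ⟨a3, w, a2, hw, fun w'' c1 c2 c3 => ?_⟩
      by_cases e' : w'' = w
      · omega
      · have := hmax w'' ⟨by omega, by omega, c3⟩
        omega
  exact fun w h1 => this (w - b).toNat w (by omega) h1

theorem odd_of_isZ {z Y : ℤ} (hz : IsZ S z) (hno : ∀ y, z < y → y < Y → ¬ IsZ S y) :
    ∀ w, z < w → w ≤ Y → Bd S w → (w - z) % 2 = 1 := by
  obtain ⟨hb, w₀, h1, h2, h3⟩ := hz
  obtain ⟨w₁, ⟨a1, a2⟩, hmin⟩ := Int.exists_least_of_bdd (P := fun x => z < x ∧ Bd S x)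
    ⟨z, fun x hx => hx.1.le⟩ ⟨w₀, h1, h2⟩
  have ho := h3 w₁ a1 (hmin w₀ ⟨h1, h2⟩) a2
  intro w c1 c2 c3
  have := even_of_noZ (Y := Y) a2 (fun y d1 d2 => hno y (by omega) d2) w (hmin w ⟨c1, c3⟩) c2 c3
  omega

theorem isZ_of_odd {z Y : ℤ} (hz : Bd S z) (hY : Bd S Y) (hzY : z < Y)
    (h : ∀ w, z < w → w ≤ Y → Bd S w → (w - z) % 2 = 1) :
    IsZ S z ∧ ∀ y, z < y → y < Y → ¬ IsZ S y := by
  refine ⟨⟨hz, Y, hzY, hY, h⟩, ?_⟩
  rintro y h1 h2 ⟨hb, w₀, a1, a2, a3⟩
  have hy := h y h1 h2.le hb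
  by_cases c : w₀ ≤ Y
  · have := h w₀ (by omega) c a2
    have := a3 w₀ a1 le_rfl a2
    omega
  · have := h Y hzY le_rfl hY
    have := a3 Y h2 (by omega) hY
    omega

theorem exists_isZ (hn : 0 < n) (hodd : n % 2 = 1) (hS : Per n S) {a b : ℤ} (ha : a ∈ S)
    (hb : b ∉ S) : ∃ z, IsZ S z := by
  have hbd : ∃ w, Bd S w := by
    obtain ⟨y, c, a0, a1, e⟩ := exists_red hn (a - b)
    have ha' : b + y ∈ S := by
      rw [← hS _ c]
      rwa [show b + y + n * c = a by omega]
    obtain ⟨w, ⟨c1, c2⟩, hmin⟩ := Int.exists_least_of_bdd (P := fun x => b ≤ x ∧ x ∈ S)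
      ⟨b, fun x hx => hx.1⟩ ⟨b + y, by omega, ha'⟩
    refine ⟨w, fun hw => ?_, c2⟩
    have : w ≠ b := fun e => hb (e ▸ c2)
    have := hmin (w - 1) ⟨by omega, hw⟩
    omega
  obtain ⟨w, hw⟩ := hbd
  by_contra hc
  push Not at hc
  have hw' : Bd S (w + n) := by
    rw [← bd_sh, show n = n * 1 by ring, hS.sh_mul]
    exact hw
  have := even_of_noZ (Y := w + n) hw (fun y _ _ => hc y) (w + n) (by omega) le_rfl hw'
  omega

theorem tail_sound (hlast : n - 1 ∉ S) (hbn : Bd S n) {H : Set ℤ} {x : ℤ}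
    (h : Tail (Val n) (n - 2) S H x) :
    ∀ z, x = z + 1 → Bd S z → (n - z) % 2 = 1 → z < n → Good (per n H) →
      IsZ S z ∧ Good (per n (H ∪ {y | z < y ∧ y < n ∧ IsZ S y})) := by
  induction h with
  | done H x h =>
    intro z hx hz hp hzn hG
    subst hx
    have := isZ_of_odd hz hbn hzn fun w h1 h2 hw => by
      by_cases e1 : w = z + 1
      · exact absurd hz.2 (by have := hw.1; rwa [e1, add_sub_cancel_right] at this)
      by_cases e2 : w = n - 1
      · exact absurd (e2 ▸ hw.2) hlast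
      by_cases e3 : w < n - 2
      · have := h w (by omega) e3 hw
        omega
      omega
    refine ⟨this.1, ?_⟩
    have e : H ∪ {y | z < y ∧ y < n ∧ IsZ S y} = H := by
      ext y
      exact ⟨fun h => h.elim id fun h => absurd h.2.2 (this.2 y h.1 h.2.1), Or.inl⟩
    rwa [e]
  | split H x u v h1 h2 h3 h4 h5 h6 h7 h8 h9 h10 h11 ih =>
    intro z hx hz hp hzn hG
    subst hx
    have a1 := isZ_of_odd hz h4 (by omega) fun w c1 c2 hw => by
      by_cases e1 : w = z + 1
      · exact absurd hz.2 (by have := hw.1; rwa [e1, add_sub_cancel_right] at this)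
      by_cases e3 : w < u
      · have := h3 w (by omega) e3 hw
        omega
      omega
    have a2 := isZ_of_odd h4 h8 (by omega) fun w c1 c2 hw => by
      by_cases e1 : w = u + 1
      · omega
      by_cases e3 : w < v
      · have := h7 w (by omega) e3 hw
        omega
      omega
    obtain ⟨a3, a4⟩ := ih v rfl h8 (by omega) (by omega) h10.2.2.2
    refine ⟨a1.1, ?_⟩
    have e : H ∪ {y | z < y ∧ y < n ∧ IsZ S y} =
        insert v (insert u H) ∪ {y | v < y ∧ y < n ∧ IsZ S y} := by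
      ext y
      simp only [Set.mem_union, Set.mem_setOf_eq, Set.mem_insert_iff]
      constructor
      · rintro (h | ⟨c1, c2, c3⟩)
        · exact Or.inl (Or.inr (Or.inr h))
        · by_cases e1 : y < u
          · exact absurd c3 (a1.2 y c1 e1)
          by_cases e2 : y = u
          · exact Or.inl (Or.inr (Or.inl e2))
          by_cases e3 : y < v
          · exact absurd c3 (a2.2 y (by omega) e3)
          by_cases e4 : y = v
          · exact Or.inl (Or.inl e4)
          exact Or.inr ⟨by omega, c2, c3⟩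
      · rintro ((h | h | h) | ⟨c1, c2, c3⟩)
        · exact Or.inr ⟨by omega, by omega, h ▸ a3⟩
        · exact Or.inr ⟨by omega, by omega, h ▸ a2.1⟩
        · exact Or.inl h
        · exact Or.inr ⟨by omega, c2, c3⟩
    rwa [e]

theorem tail_complete (hn : 0 < n) (hlast : n - 1 ∉ S) (hbn : Bd S n) (d : ℕ) :
    ∀ (z : ℤ) (H : Set ℤ), n - z ≤ d → IsZ S z → (n - z) % 2 = 1 → 0 ≤ z → z < n → 0 ∈ H →
      (∀ y ∈ H, 0 ≤ y ∧ y ≤ z) → Good (per n (H ∪ {y | z < y ∧ y < n ∧ IsZ S y})) →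
      Tail (Val n) (n - 2) S H (z + 1) := by
  induction d with
  | zero => intro z H h1 _ _ _ h2; omega
  | succ d ih =>
    intro z H hd hz hp hz0 hzn h0 hH hG
    by_cases hno : ∀ y, z < y → y < n → ¬ IsZ S y
    · refine Tail.done _ _ fun w c1 c2 hw => ?_
      have := odd_of_isZ hz hno w (by omega) (by omega) hw
      omega
    push Not at hno
    obtain ⟨u, ⟨u1, u2, u3⟩, umin⟩ :=
      Int.exists_least_of_bdd (P := fun x => z < x ∧ x < n ∧ IsZ S x)
        ⟨z, fun x hx => hx.1.le⟩ hno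
    have hzu : ∀ y, z < y → y < u → ¬ IsZ S y := fun y c1 c2 c3 => by
      have := umin y ⟨c1, by omega, c3⟩
      omega
    have ou := odd_of_isZ hz hzu
    have ou' := ou u u1 le_rfl u3.1
    have hno' : ∃ y, u < y ∧ y < n ∧ IsZ S y := by
      by_contra hc
      push Not at hc
      have := odd_of_isZ u3 hc n u2 le_rfl hbn
      omega
    obtain ⟨v, ⟨v1, v2, v3⟩, vmin⟩ :=
      Int.exists_least_of_bdd (P := fun x => u < x ∧ x < n ∧ IsZ S x)
        ⟨u, fun x hx => hx.1.le⟩ hno'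
    have huv : ∀ y, u < y → y < v → ¬ IsZ S y := fun y c1 c2 c3 => by
      have := vmin y ⟨c1, by omega, c3⟩
      omega
    have ov := odd_of_isZ u3 huv
    have ov' := ov v v1 le_rfl v3.1
    have hu1 : u ≠ z + 1 := fun e =>
      absurd hz.1.2 (by have := u3.1.1; rwa [e, add_sub_cancel_right] at this)
    have hv1 : v ≠ u + 1 := fun e =>
      absurd u3.1.2 (by have := v3.1.1; rwa [e, add_sub_cancel_right] at this)
    have hv2 : v ≠ n - 1 := fun e => hlast (e ▸ v3.1.2)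
    have e : H ∪ {y | z < y ∧ y < n ∧ IsZ S y} =
        insert v (insert u H) ∪ {y | v < y ∧ y < n ∧ IsZ S y} := by
      ext y
      simp only [Set.mem_union, Set.mem_setOf_eq, Set.mem_insert_iff]
      constructor
      · rintro (h | ⟨c1, c2, c3⟩)
        · exact Or.inl (Or.inr (Or.inr h))
        · by_cases e1 : y < u
          · exact absurd c3 (hzu y c1 e1)
          by_cases e2 : y = u
          · exact Or.inl (Or.inr (Or.inl e2))
          by_cases e3 : y < v
          · exact absurd c3 (huv y (by omega) e3)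
          by_cases e4 : y = v
          · exact Or.inl (Or.inl e4)
          exact Or.inr ⟨by omega, c2, c3⟩
      · rintro ((h | h | h) | ⟨c1, c2, c3⟩)
        · exact Or.inr ⟨by omega, by omega, h ▸ v3⟩
        · exact Or.inr ⟨by omega, by omega, h ▸ u3⟩
        · exact Or.inl h
        · exact Or.inr ⟨by omega, c2, c3⟩
    rw [e] at hG
    refine Tail.split _ _ u v (by omega) (by omega) (fun w c1 c2 hw => ?_) u3.1 (by omega)
      (by omega) (fun w c1 c2 hw => ?_) v3.1 (by omega)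
      ⟨h0, fun y hy => ⟨(hH y hy).1, by have := (hH y hy).2; omega⟩, v2, ?_⟩
      (ih v _ (by push_cast at hd; omega) v3 (by omega) (by omega) v2 (by simp [h0]) ?_ hG)
    · have := ou w (by omega) (by omega) hw
      omega
    · have := ov w (by omega) (by omega) hw
      omega
    · by_cases hc : ∃ y, v < y ∧ y < n ∧ IsZ S y
      · obtain ⟨w, w1, w2, w3⟩ := hc
        refine good_of_longer hn (per_per _) (per_per _) hG.1 (v := w) (v' := v) ?_ (by omega)
          w1 w2 ?_ ?_ ?_ ?_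
        · rw [mem_per (by omega) w2]
          exact Or.inr ⟨w1, w2, w3⟩
        · rw [mem_per le_rfl hn]; simp [h0]
        · rw [mem_per (by omega) v2]; simp
        · intro y c1 c2
          rw [mem_per (by omega) c2]
          rintro (e | e | e)
          · omega
          · omega
          · have := hH y e
            omega
        · intro y c1 c2
          rw [mem_per c1 (by omega), mem_per c1 (by omega)]
          rintro (e | e)
          · exact e
          · have := e.1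
            omega
      · have e' : insert v (insert u H) ∪ {y | v < y ∧ y < n ∧ IsZ S y} =
            insert v (insert u H) := by
          ext y
          exact ⟨fun h => h.elim id fun h => absurd ⟨y, h⟩ hc, Or.inl⟩
        rwa [e'] at hG
    · rintro y (e | e | e)
      · omega
      · omega
      · have := hH y e
        omega

theorem per_zs (hn : 0 < n) (hS : Per n S) (h0 : IsZ S 0) :
    per n ({0} ∪ {y | 0 < y ∧ y < n ∧ IsZ S y}) = {z | IsZ S z} := by
  refine Per.ext hn (per_per _) hS.zs fun y c1 c2 => ?_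
  rw [mem_per c1 c2]
  simp only [Set.mem_union, Set.mem_singleton_iff, Set.mem_setOf_eq]
  constructor
  · rintro (h | h)
    · exact h ▸ h0
    · exact h.2.2
  · intro h
    by_cases e : y = 0
    · exact Or.inl e
    · exact Or.inr ⟨by omega, c2, h⟩

theorem rep_iff (hn : 1 < n) (hodd : n % 2 = 1) (hS : Per n S) :
    Rep (Val n) (n - 2) S ↔ Good {z | IsZ S z} := by
  have hn0 : 0 < n := by omega
  have e1 : n - 1 ∈ S ↔ 0 - 1 ∈ S := by rw [← hS (0 - 1) 1]; congr! 1; ring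
  have e2 : n ∈ S ↔ 0 ∈ S := by rw [← hS 0 1]; congr! 1; ring
  rw [Rep, show n - 2 + 1 = n - 1 by ring]
  constructor
  · rintro ⟨h0, h1, hT⟩
    have hG0 : Good (per n {0}) := by
      refine good_of_longer hn0 (Z := Set.univ) (fun _ _ => by simp) (per_per _)
        ⟨trivial, fun k g hf y c1 c2 _ => hf (y + k) (by omega) (by omega) trivial⟩
        (v := n - 1) (v' := 0) trivial le_rfl (by omega) (by omega) ?_ ?_ ?_ ?_
      · rw [mem_per le_rfl hn0]; rfl
      · rw [mem_per le_rfl hn0]; rfl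
      · intro y c1 c2
        rw [mem_per (by omega) c2]
        intro h
        have : y = 0 := h
        omega
      · intro y c1 c2
        omega
    obtain ⟨a1, a2⟩ := tail_sound h1 ⟨h1, e2.2 h0⟩ hT 0 (by ring) ⟨fun h => h1 (e1.2 h), h0⟩
      (by omega) hn0 hG0
    rwa [per_zs hn0 hS a1] at a2
  · intro hG
    have h0 : IsZ S 0 := hG.1.1
    have h1 : n - 1 ∉ S := fun h => h0.1.1 (e1.1 h)
    refine ⟨h0.1.2, h1, ?_⟩
    have := tail_complete hn0 h1 ⟨h1, e2.2 h0.1.2⟩ n.toNat 0 {0} (by omega) h0 (by omega) le_rfl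
      hn0 rfl (fun y hy => by have : y = 0 := hy; omega) (by rwa [per_zs hn0 hS h0])
    simpa using this

theorem exists_rep (hn : 1 < n) (hodd : n % 2 = 1) (hS : Per n S) {a b : ℤ} (ha : a ∈ S)
    (hb : b ∉ S) : ∃ k, Rep (Val n) (n - 2) (sh k S) := by
  obtain ⟨k, hk⟩ := exists_good (by omega) hS.zs (exists_isZ (by omega) hodd hS ha hb)
  exact ⟨k, (rep_iff hn hodd (hS.sh k)).2 (by rwa [zs_sh])⟩

theorem rep_unique {p : ℕ} (hp : p.Prime) (hodd : (p : ℤ) % 2 = 1) (hS : Per p S) {k k' : ℤ}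
    (h : Rep (Val p) (p - 2) (sh k S)) (h' : Rep (Val p) (p - 2) (sh k' S)) :
    (p : ℤ) ∣ k' - k := by
  have hn : (1 : ℤ) < p := by exact_mod_cast hp.one_lt
  rw [rep_iff hn hodd (hS.sh _)] at h h'
  have e : sh k' S = sh (k' - k) (sh k S) := by rw [sh_sh]; congr 1; ring
  rw [e, zs_sh] at h'
  refine dvd_of_sh_eq hp (hS.sh k).zs (h.unique h') h.1.1 fun h1 => ?_
  have a : IsZ (sh k S) 0 := h.1.1
  have b : IsZ (sh k S) 1 := h1
  exact b.1.1 (by simpa using a.1.2)

end Pool.Agent.Lib.MP_80d9dd_co
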