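import Pool.Agent.Lib.MP_80d9dd_co.Data

set_option autoImplicit false

namespace Pool.Agent.Lib.MP_80d9dd_co

open Set Filter Topology

/-- Radius functions of a simple symmetric Venn diagram in polar form. -/
def PolarData (n : ℕ) (Φ : ℝ → ℝ) (ψ : Fin n → ℝ → ℝ) : Prop :=
  Continuous Φ ∧ Function.Periodic Φ 1 ∧ (∀ i t, ψ i t = Φ (t - (i : ℕ) / n)) ∧
    (∀ S : Finset (Fin n), ∃ J : Set ℝ, IsConnected J ∧
      (∀ t ∈ J, ∀ i ∈ S, ∀ j ∉ S, ψ j t < ψ i t) ∧
      ∀ t, (∀ i ∈ S, ∀ j ∉ S, ψ j t < ψ i t) → ∃ k : ℤ, t + k ∈ J) ∧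
    (∀ i j, i ≠ j → {t | 0 ≤ t ∧ t < 1 ∧ ψ i t = ψ j t}.Finite) ∧
    (∀ i j k t, i ≠ j → j ≠ k → i ≠ k → ψ i t = ψ j t → ψ j t = ψ k t → False) ∧
    ∀ i j t, i ≠ j → ψ i t = ψ j t → ∃ᶠ y in 𝓝 t, ψ j y < ψ i y

theorem polar_of_wires (n M : ℕ) (hn : 0 < n) (hM : 0 < M) (g : ℤ → ℤ)
    (hper : ∀ t, g (t + n * M) = g t)
    (h : Fin n → ℤ → ℤ) (hh : ∀ i t, h i t = g (t - (i : ℕ) * M))
    (hinj : ∀ t i j, h i t = h j t → i = j) (hs : ∀ t, ∃ a b, Step h t a b)
    (hcont : ∀ S : Finset (Fin n), ∃ p q : ℤ, p ≤ q ∧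
      (∀ t, p ≤ t → t ≤ q → ∀ i ∈ S, ∀ j ∉ S, h j t < h i t) ∧
      ∀ t, (∀ i ∈ S, ∀ j ∉ S, h j t < h i t) →
        ∃ k : ℤ, p ≤ t + k * (n * M) ∧ t + k * (n * M) ≤ q) :
    ∃ Φ ψ, PolarData n Φ ψ := by
  have hn' : (0 : ℝ) < n := by exact_mod_cast hn
  have hM' : (0 : ℝ) < M := by exact_mod_cast hM
  set N : ℝ := n * M with hN
  have hN0 : 0 < N := by positivity
  have hgk : ∀ k t : ℤ, g (t + k * (n * M)) = g t := by
    intro k t
    have : Function.Periodic g (n * M) := hper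
    exact this.int_mul k t
  have hψ : ∀ (i : Fin n) (t : ℝ), lin (h i) (N * t) = lin g (N * (t - (i : ℕ) / n)) := by
    intro i t
    have e : N * (t - (i : ℕ) / n) = N * t + ((-((i : ℕ) * M : ℤ) : ℤ) : ℝ) := by
      push_cast
      rw [hN]
      field_simp
      ring
    rw [e, lin_add_int]
    congr 1
    funext t
    rw [hh]
    congr 1
  have hshift : ∀ (i : Fin n) (x : ℝ) (k : ℤ), lin (h i) (x + k * N) = lin (h i) x := by
    intro i x k
    have e : x + k * N = x + ((k * (n * M) : ℤ) : ℝ) := by push_cast; rfl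
    rw [e, lin_add_int]
    congr 1
    funext t
    rw [hh, hh, ← hgk k (t - (i : ℕ) * M)]
    congr 1
    ring
  have htop : ∀ (S : Finset (Fin n)) (x : ℝ), (∀ i ∈ S, ∀ j ∉ S, lin (h j) x < lin (h i) x) ↔
      (Int.fract x ≤ 1 / 2 → ∀ i ∈ S, ∀ j ∉ S, h j ⌊x⌋ < h i ⌊x⌋) ∧
      (1 / 2 ≤ Int.fract x → ∀ i ∈ S, ∀ j ∉ S, h j (⌊x⌋ + 1) < h i (⌊x⌋ + 1)) := by
    intro S x
    have hne : ∀ i ∈ S, ∀ j ∉ S, i ≠ j := fun i hi j hj e => hj (e ▸ hi)
    constructor
    · intro H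
      exact ⟨fun e i hi j hj => ((lin_lt_iff hinj hs (hne i hi j hj) x).1 (H i hi j hj)).1 e,
        fun e i hi j hj => ((lin_lt_iff hinj hs (hne i hi j hj) x).1 (H i hi j hj)).2 e⟩
    · rintro ⟨H1, H2⟩ i hi j hj
      exact (lin_lt_iff hinj hs (hne i hi j hj) x).2
        ⟨fun e => H1 e i hi j hj, fun e => H2 e i hi j hj⟩
  refine ⟨fun t => lin g (N * t), fun i t => lin (h i) (N * t),
    (continuous_lin g).comp (by fun_prop), ?_, hψ, ?_, ?_, ?_, ?_⟩
  · intro t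
    have e : N * (t + 1) = N * t + ((n * M : ℤ) : ℝ) := by push_cast; ring
    simp only
    rw [e, lin_add_int]
    congr 1
    funext t
    exact hper t
  · intro S
    obtain ⟨p, q, hpq, H1, H2⟩ := hcont S
    have hpq' : (p : ℝ) ≤ q := by exact_mod_cast hpq
    have hlt : ((p : ℝ) - 1 / 2) / N < (q + 1 / 2) / N :=
      div_lt_div_of_pos_right (by linarith) hN0
    refine ⟨{t | (∀ i ∈ S, ∀ j ∉ S, lin (h j) (N * t) < lin (h i) (N * t)) ∧
      t ∈ Icc (((p : ℝ) - 1 / 2) / N) ((q + 1 / 2) / N)}, ?_, fun t ht => ht.1, ?_⟩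
    · refine (isConnected_Ioo hlt).subset_closure ?_ ?_
      · intro t ht
        refine ⟨?_, Ioo_subset_Icc_self ht⟩
        obtain ⟨t1, t2⟩ := ht
        rw [div_lt_iff₀ hN0] at t1
        rw [lt_div_iff₀ hN0] at t2
        have e := Int.floor_add_fract (N * t)
        have f0 := Int.fract_nonneg (N * t)
        have f1 := Int.fract_lt_one (N * t)
        rw [htop]
        constructor
        · intro c
          refine H1 _ ?_ ?_
          · have : (p : ℝ) - 1 < ⌊N * t⌋ := by linarith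
            have : p - 1 < ⌊N * t⌋ := by exact_mod_cast this
            omega
          · have : (⌊N * t⌋ : ℝ) < q + 1 := by linarith
            have : ⌊N * t⌋ < q + 1 := by exact_mod_cast this
            omega
        · intro c
          refine H1 _ ?_ ?_
          · have : (p : ℝ) - 2 < ⌊N * t⌋ := by linarith
            have : p - 2 < ⌊N * t⌋ := by exact_mod_cast this
            omega
          · have : (⌊N * t⌋ : ℝ) < q := by linarith
            have : ⌊N * t⌋ < q := by exact_mod_cast this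
            omega
      · rw [closure_Ioo hlt.ne]
        exact fun t ht => ht.2
    · intro t ht
      have e := Int.floor_add_fract (N * t)
      have f0 := Int.fract_nonneg (N * t)
      have f1 := Int.fract_lt_one (N * t)
      have key : ∃ k : ℤ, (p : ℝ) - 1 / 2 ≤ N * t + k * N ∧ N * t + k * N ≤ q + 1 / 2 := by
        obtain ⟨a1, a2⟩ := (htop S _).1 ht
        rcases le_total (Int.fract (N * t)) (1 / 2) with c | c
        · obtain ⟨k, k1, k2⟩ := H2 _ (a1 c)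
          have k1' : (p : ℝ) ≤ ⌊N * t⌋ + k * (n * M) := by exact_mod_cast k1
          have k2' : (⌊N * t⌋ : ℝ) + k * (n * M) ≤ q := by exact_mod_cast k2
          rw [← hN] at k1' k2'
          exact ⟨k, by linarith, by linarith⟩
        · obtain ⟨k, k1, k2⟩ := H2 _ (a2 c)
          have k1' : (p : ℝ) ≤ ⌊N * t⌋ + 1 + k * (n * M) := by exact_mod_cast k1
          have k2' : (⌊N * t⌋ : ℝ) + 1 + k * (n * M) ≤ q := by exact_mod_cast k2
          rw [← hN] at k1' k2'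
          exact ⟨k, by linarith, by linarith⟩
      obtain ⟨k, k1, k2⟩ := key
      refine ⟨k, ?_, ?_, ?_⟩
      · have e : N * (t + k) = N * t + k * N := by ring
        simp only [e, hshift]
        exact ht
      · rw [div_le_iff₀ hN0]
        linarith
      · rw [le_div_iff₀ hN0]
        linarith
  · intro i j hij
    refine ((Set.finite_Icc (0 : ℤ) (n * M)).image fun k : ℤ => ((k : ℝ) + 1 / 2) / N).subset ?_
    rintro t ⟨t0, t1, e⟩
    obtain ⟨a, b, hs⟩ := hs ⌊N * t⌋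
    obtain ⟨e1, -⟩ := lin_eq_imp hinj hs hij e
    refine ⟨⌊N * t⌋, ⟨Int.floor_nonneg.2 (by positivity), ?_⟩, ?_⟩
    · have : (⌊N * t⌋ : ℝ) ≤ ((n * M : ℤ) : ℝ) := by
        push_cast
        have := Int.floor_le (N * t)
        nlinarith
      exact_mod_cast this
    · simp only
      rw [← e1, Int.floor_add_fract]
      field_simp
  · intro i j k t hij hjk hik e1 e2
    obtain ⟨a, b, hs⟩ := hs ⌊N * t⌋
    obtain ⟨-, c1⟩ := lin_eq_imp hinj hs hij e1
    obtain ⟨-, c2⟩ := lin_eq_imp hinj hs hjk e2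
    rcases c1 with ⟨rfl, rfl⟩ | ⟨rfl, rfl⟩
    · rcases c2 with ⟨c, -⟩ | ⟨-, c⟩
      · exact hij c.symm
      · exact hik c.symm
    · rcases c2 with ⟨-, c⟩ | ⟨c, -⟩
      · exact hik c.symm
      · exact hij c.symm
  · intro i j t hij e
    have := lin_frequently hinj hs hij e
    have hm : map (fun y => N * y) (𝓝 t) = 𝓝 (N * t) :=
      (Homeomorph.mulLeft₀ N hN0.ne').map_nhds_eq t
    rw [← hm, frequently_map] at this
    exact this
theorem polar_of_prime (n : ℕ) (hn : n.Prime) : ∃ Φ ψ, PolarData n Φ ψ := by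
  rcases hn.eq_two_or_odd' with rfl | hodd
  · obtain ⟨M, g, h, h1, h2, h3, h4, h5, h6⟩ := wires_two
    exact polar_of_wires 2 M two_pos h1 g h2 h h3 h4 h5 h6
  · obtain ⟨k, hk⟩ := hodd
    have h2 := hn.two_le
    obtain ⟨M, g, h, h1, h2, h3, h4, h5, h6⟩ := wires_odd n (k - 1) hn (by omega)
    exact polar_of_wires n M hn.pos h1 g h2 h h3 h4 h5 h6

variable {φ : ℝ → ℝ}

theorem Cu_circle (hc : Continuous φ) (hp : Function.Periodic φ 1) :
    ∃ f : Circle → ℂ, Continuous f ∧ Function.Injective f ∧ Set.range f = Cu φ := by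
  have hper : Function.Periodic (fun t => E (φ t) t) 1 := by
    intro t
    have := E_add_int (φ t) t 1
    simpa [hp t] using this
  have hcont : Continuous fun t => E (φ t) t :=
    continuous_E.comp (f := fun y => (φ y, y)) (by fun_prop)
  let g : AddCircle (1 : ℝ) → ℂ := hper.lift
  have hg : ∀ t : ℝ, g (t : AddCircle (1 : ℝ)) = E (φ t) t := fun t => rfl
  have gc : Continuous g := continuous_coinduced_dom.2 hcont
  have gi : Function.Injective g := by
    intro a b hab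
    obtain ⟨s, rfl⟩ := QuotientAddGroup.mk_surjective a
    obtain ⟨t, rfl⟩ := QuotientAddGroup.mk_surjective b
    obtain ⟨-, k, hk⟩ := E_eq (hab : E (φ s) s = E (φ t) t)
    rw [hk]
    have : ((k : ℝ) : AddCircle (1 : ℝ)) = 0 :=
      (AddCircle.coe_eq_zero_iff _).2 ⟨k, by simp⟩
    change ((t + k : ℝ) : AddCircle (1 : ℝ)) = (t : AddCircle (1 : ℝ))
    rw [AddCircle.coe_add, this, add_zero]
  let e := AddCircle.homeomorphCircle (T := (1 : ℝ)) one_ne_zero
  refine ⟨g ∘ e.symm, gc.comp e.symm.continuous, gi.comp e.symm.injective, ?_⟩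
  rw [e.symm.surjective.range_comp]
  ext z
  constructor
  · rintro ⟨a, rfl⟩
    obtain ⟨s, rfl⟩ := QuotientAddGroup.mk_surjective a
    exact ⟨s, rfl⟩
  · rintro ⟨t, rfl⟩
    exact ⟨t, rfl⟩

theorem mem_closure_E {A : Set ℂ} {ρ τ : ℝ → ℝ} {x : ℝ} (h1 : Continuous ρ) (h2 : Continuous τ)
    (h : ∃ᶠ y in 𝓝 x, E (ρ y) (τ y) ∈ A) : E (ρ x) (τ x) ∈ closure A := by
  rw [mem_closure_iff_nhds]
  intro U hU
  obtain ⟨y, a1, a2⟩ := (h.and_eventually (near_E h1 h2 hU)).exists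
  exact ⟨_, a2, a1⟩

theorem frontier_eq_of {C I O : Set ℂ} (hu : Cᶜ = I ∪ O) (hd : Disjoint I O) (hI : IsOpen I)
    (hO : IsOpen O) (hC : C ⊆ closure I) : frontier I = C := by
  rw [hI.frontier_eq]
  ext z
  constructor
  · rintro ⟨h1, h2⟩
    by_contra h3
    have h4 : z ∈ I ∪ O := hu ▸ h3
    exact Set.disjoint_left.1 (hd.closure_left hO) h1 (h4.resolve_left h2)
  · intro h
    refine ⟨hC h, fun h2 => ?_⟩
    have h4 : z ∈ Cᶜ := hu ▸ Or.inl h2
    exact h4 h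

theorem frontier_In (hc : Continuous φ) (hp : Function.Periodic φ 1) :
    frontier (In φ) = Cu φ := by
  refine frontier_eq_of (compl_Cu hp) (disjoint_In_Ou hp) (isOpen_In hc hp) (isOpen_Ou hc) ?_
  rintro z ⟨t, rfl⟩
  exact mem_closure_E (ρ := fun y => y) (τ := fun _ => t) (x := φ t) continuous_id
    continuous_const ((frequently_lt_nhds (φ t)).mono fun y hy => (E_mem_In hp).2 hy)

theorem frontier_Ou (hc : Continuous φ) (hp : Function.Periodic φ 1) :
    frontier (Ou φ) = Cu φ := by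
  refine frontier_eq_of (O := In φ) (by rw [compl_Cu hp, union_comm]) (disjoint_In_Ou hp).symm
    (isOpen_Ou hc) (isOpen_In hc hp) ?_
  rintro z ⟨t, rfl⟩
  exact mem_closure_E (ρ := fun y => y) (τ := fun _ => t) (x := φ t) continuous_id
    continuous_const ((frequently_gt_nhds (φ t)).mono fun y hy => (E_mem_Ou hp).2 hy)

theorem isConnected_Ou (hc : Continuous φ) : IsConnected (Ou φ) :=
  ⟨⟨_, φ 0 + 1, 0, rfl, by linarith⟩, isPreconnected_Ou hc⟩

theorem isConnected_In : IsConnected (In φ) := ⟨⟨0, zero_mem_In⟩, isPreconnected_In⟩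

/-- A shift of the radius function is a rotation of the curve. -/
theorem Cu_shift {φ' : ℝ → ℝ} {a : ℝ} (h : ∀ t, φ' (t + a) = φ t) :
    Cu φ' = (fun z => Complex.exp (2 * Real.pi * a * Complex.I) * z) '' Cu φ := by
  have key : ∀ t, Complex.exp (2 * Real.pi * a * Complex.I) * E (φ t) t
      = E (φ' (t + a)) (t + a) := by
    intro t
    rw [h]
    unfold E
    rw [← Complex.exp_add]
    congr 1
    push_cast
    ring
  ext z
  constructor
  · rintro ⟨t, rfl⟩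
    exact ⟨_, ⟨t - a, rfl⟩, by simp only [key, sub_add_cancel]⟩
  · rintro ⟨_, ⟨t, rfl⟩, rfl⟩
    exact ⟨t + a, (key t).symm⟩

theorem exists_isometry {φ' : ℝ → ℝ} {a : ℝ} (h : ∀ t, φ' (t + a) = φ t) :
    ∃ e : ℂ ≃ᵢ ℂ, e '' Cu φ = Cu φ' := by
  refine ⟨(rotation (Circle.exp (2 * Real.pi * a))).toIsometryEquiv, ?_⟩
  rw [Cu_shift h]
  congr 1
  funext z
  simp [rotation_apply]

variable {n : ℕ} {Φ : ℝ → ℝ} {ψ : Fin n → ℝ → ℝ}

theorem PolarData.cont (h : PolarData n Φ ψ) (i : Fin n) : Continuous (ψ i) := by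
  have := h.1
  rw [show ψ i = fun t => Φ (t - (i : ℕ) / n) from funext (h.2.2.1 i)]
  fun_prop

theorem PolarData.per (h : PolarData n Φ ψ) (i : Fin n) : Function.Periodic (ψ i) 1 := by
  intro t
  rw [h.2.2.1, h.2.2.1, show t + 1 - ((i : ℕ) : ℝ) / n = t - (i : ℕ) / n + 1 by ring, h.2.1]

theorem PolarData.finite (h : PolarData n Φ ψ) {i j : Fin n} (hij : i ≠ j) :
    (Cu (ψ i) ∩ Cu (ψ j)).Finite := by
  refine ((h.2.2.2.2.1 i j hij).image fun t => E (ψ i t) t).subset ?_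
  rintro z ⟨⟨t, rfl⟩, hz⟩
  rw [E_mem_Cu (h.per j)] at hz
  have e : Int.fract t = t + ((-⌊t⌋ : ℤ) : ℝ) := by
    rw [Int.fract]
    push_cast
    ring
  refine ⟨Int.fract t, ⟨Int.fract_nonneg t, Int.fract_lt_one t, ?_⟩, ?_⟩
  · rw [e, per_int (h.per i), per_int (h.per j), hz]
  · simp only
    rw [e, per_int (h.per i), E_add_int]

theorem PolarData.simple (h : PolarData n Φ ψ) {z : ℂ} {i j k : Fin n} (hi : z ∈ Cu (ψ i))
    (hj : z ∈ Cu (ψ j)) (hk : z ∈ Cu (ψ k)) : i = j ∨ j = k ∨ i = k := by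
  by_contra hne
  push Not at hne
  obtain ⟨t, rfl⟩ := hi
  rw [E_mem_Cu (h.per _)] at hj hk
  exact h.2.2.2.2.2.1 i j k t hne.1 hne.2.1 hne.2.2 hj (hj ▸ hk)

theorem PolarData.cross (h : PolarData n Φ ψ) {z : ℂ} {i j : Fin n} (hij : i ≠ j)
    (hi : z ∈ Cu (ψ i)) (hj : z ∈ Cu (ψ j)) :
    z ∈ closure (Cu (ψ j) ∩ In (ψ i)) ∧ z ∈ closure (Cu (ψ j) ∩ Ou (ψ i)) := by
  obtain ⟨t, rfl⟩ := hj
  rw [E_mem_Cu (h.per _)] at hi
  exact ⟨mem_closure_E (ρ := ψ j) (τ := fun y => y) (h.cont j) continuous_id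
      ((h.2.2.2.2.2.2 i j t hij hi.symm).mono fun y hy => ⟨⟨y, rfl⟩, (E_mem_In (h.per i)).2 hy⟩),
    mem_closure_E (ρ := ψ j) (τ := fun y => y) (h.cont j) continuous_id
      ((h.2.2.2.2.2.2 j i t hij.symm hi).mono fun y hy => ⟨⟨y, rfl⟩, (E_mem_Ou (h.per i)).2 hy⟩)⟩

theorem PolarData.region (h : PolarData n Φ ψ) (S : Set (Fin n)) :
    IsConnected ((⋂ i ∈ S, In (ψ i)) ∩ ⋂ i ∉ S, Ou (ψ i)) := by
  classical
  obtain ⟨J, a1, a2, a3⟩ := h.2.2.2.1 S.toFinset
  have := region_connected ψ h.cont h.per S.toFinset J a1 a2 a3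
  simpa using this

theorem PolarData.rot (h : PolarData n Φ ψ) {i j : Fin n} (hij : (j : ℕ) = (i + 1) % n) :
    Cu (ψ j) = (fun z => Complex.exp (2 * Real.pi / n * Complex.I) * z) '' Cu (ψ i) := by
  have hn : 0 < n := i.pos
  have hn' : (n : ℝ) ≠ 0 := by positivity
  have key : ∀ t, ψ j (t + 1 / n) = ψ i t := by
    intro t
    rw [h.2.2.1, h.2.2.1]
    have e : (((i : ℕ) + 1 : ℕ) : ℝ) = n * ((((i : ℕ) + 1) / n : ℕ) : ℝ) + (j : ℕ) := by
      rw [hij]
      exact_mod_cast (Nat.div_add_mod _ _).symm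
    generalize ((i : ℕ) + 1) / n = q at e
    have e2 : t + 1 / n - ((j : ℕ) : ℝ) / n = t - ((i : ℕ) : ℝ) / n + ((q : ℤ) : ℝ) := by
      push_cast at e ⊢
      field_simp
      linarith
    rw [e2, per_int h.2.1]
  have e : 2 * (Real.pi : ℂ) * ((1 / n : ℝ) : ℂ) * Complex.I = 2 * Real.pi / n * Complex.I := by
    push_cast
    ring
  rw [Cu_shift key, e]

theorem PolarData.congruent (h : PolarData n Φ ψ) (i j : Fin n) :
    ∃ e : ℂ ≃ᵢ ℂ, e '' Cu (ψ i) = Cu (ψ j) := by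
  refine exists_isometry (a := ((j : ℕ) : ℝ) / n - ((i : ℕ) : ℝ) / n) fun t => ?_
  rw [h.2.2.1, h.2.2.1]
  congr 1
  ring

end Pool.Agent.Lib.MP_80d9dd_co
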