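import Mathlib

set_option autoImplicit false

namespace Pool.Agent.Lib.MP_80d9dd_co

open Complex Set Filter Topology

/-- The point with logarithmic radius `r` and angle `2 π t`. -/
noncomputable def E (r t : ℝ) : ℂ := Complex.exp (r + 2 * Real.pi * t * Complex.I)

/-- The curve given by a radius function. -/
def Cu (φ : ℝ → ℝ) : Set ℂ := Set.range fun t => E (φ t) t

/-- The inside of the curve. -/
def In (φ : ℝ → ℝ) : Set ℂ := {z | ∀ r t, z = E r t → r < φ t}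

/-- The outside of the curve. -/
def Ou (φ : ℝ → ℝ) : Set ℂ := {z | ∃ r t, z = E r t ∧ φ t < r}

theorem E_ne_zero (r t : ℝ) : E r t ≠ 0 := Complex.exp_ne_zero _

theorem norm_E (r t : ℝ) : ‖E r t‖ = Real.exp r := by
  simp [E, Complex.norm_exp]

theorem continuous_E : Continuous fun p : ℝ × ℝ => E p.1 p.2 := by
  unfold E
  fun_prop

theorem E_add_int (r t : ℝ) (k : ℤ) : E r (t + k) = E r t := by
  unfold E
  rw [Complex.exp_eq_exp_iff_exists_int]
  exact ⟨k, by push_cast; ring⟩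

theorem E_eq {r t r' t' : ℝ} (h : E r t = E r' t') : r = r' ∧ ∃ k : ℤ, t = t' + k := by
  unfold E at h
  rw [Complex.exp_eq_exp_iff_exists_int] at h
  obtain ⟨k, hk⟩ := h
  have h1 := congrArg Complex.re hk
  have h2 := congrArg Complex.im hk
  simp at h1 h2
  refine ⟨h1, k, ?_⟩
  have hpi : (2 * Real.pi) ≠ 0 := by positivity
  apply mul_left_cancel₀ hpi
  linarith

theorem exists_E {z : ℂ} (hz : z ≠ 0) : ∃ r t, z = E r t := by
  refine ⟨(Complex.log z).re, (Complex.log z).im / (2 * Real.pi), ?_⟩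
  have hpi : (2 * (Real.pi : ℂ)) ≠ 0 := by
    have := Real.pi_ne_zero
    simp [this]
  unfold E
  have : ((Complex.log z).re : ℂ) + 2 * Real.pi * (((Complex.log z).im / (2 * Real.pi) : ℝ) : ℂ) *
      Complex.I = Complex.log z := by
    push_cast
    rw [mul_div_cancel₀ _ hpi]
    exact Complex.re_add_im _
  rw [this, Complex.exp_log hz]

theorem smul_E (r t s : ℝ) : (Real.exp s : ℂ) * E r t = E (s + r) t := by
  unfold E
  push_cast
  rw [← Complex.exp_add]
  congr 1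
  ring

variable {φ : ℝ → ℝ}

theorem per_int (hp : Function.Periodic φ 1) (t : ℝ) (k : ℤ) : φ (t + k) = φ t := by
  have := hp.int_mul k t
  simpa using this

theorem E_mem_Cu (hp : Function.Periodic φ 1) {r t : ℝ} : E r t ∈ Cu φ ↔ r = φ t := by
  constructor
  · rintro ⟨t', h⟩
    obtain ⟨h1, k, h2⟩ := E_eq h
    rw [← h1, h2, per_int hp]
  · rintro rfl
    exact ⟨t, rfl⟩

theorem E_mem_In (hp : Function.Periodic φ 1) {r t : ℝ} : E r t ∈ In φ ↔ r < φ t := by
  constructor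
  · intro h
    exact h r t rfl
  · intro h r' t' e
    obtain ⟨h1, k, h2⟩ := E_eq e
    rwa [← h1, ← per_int hp t' k, ← h2]

theorem E_mem_Ou (hp : Function.Periodic φ 1) {r t : ℝ} : E r t ∈ Ou φ ↔ φ t < r := by
  constructor
  · rintro ⟨r', t', e, h⟩
    obtain ⟨h1, k, h2⟩ := E_eq e
    rwa [h1, h2, per_int hp]
  · intro h
    exact ⟨r, t, rfl, h⟩

theorem zero_mem_In : (0 : ℂ) ∈ In φ := fun r t h => absurd h.symm (E_ne_zero r t)

theorem zero_not_mem_Ou : (0 : ℂ) ∉ Ou φ := fun ⟨r, t, h, _⟩ => E_ne_zero r t h.symm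

theorem zero_not_mem_Cu : (0 : ℂ) ∉ Cu φ := fun ⟨t, h⟩ => E_ne_zero _ t h

theorem compl_Cu (hp : Function.Periodic φ 1) : (Cu φ)ᶜ = In φ ∪ Ou φ := by
  ext z
  by_cases hz : z = 0
  · subst hz
    simp [zero_mem_In, zero_not_mem_Cu]
  · obtain ⟨r, t, rfl⟩ := exists_E hz
    rw [mem_compl_iff, mem_union, E_mem_Cu hp, E_mem_In hp, E_mem_Ou hp]
    exact ne_iff_lt_or_gt

theorem disjoint_In_Ou (hp : Function.Periodic φ 1) : Disjoint (In φ) (Ou φ) := by
  rw [Set.disjoint_left]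
  rintro z h1 ⟨r, t, rfl, h2⟩
  exact lt_asymm h2 ((E_mem_In hp).1 h1)

theorem exists_bound (hc : Continuous φ) (hp : Function.Periodic φ 1) :
    ∃ B, ∀ t, -B ≤ φ t ∧ φ t ≤ B := by
  obtain ⟨B, hB⟩ := (hp.isBounded_of_continuous one_ne_zero hc).exists_norm_le
  exact ⟨B, fun t => abs_le.1 (hB _ ⟨t, rfl⟩)⟩

theorem isOpen_image_E {W : Set (ℝ × ℝ)} (hW : IsOpen W) :
    IsOpen {z | ∃ r t, z = E r t ∧ (r, t) ∈ W} := by
  have hpi : (2 * (Real.pi : ℂ)) ≠ 0 := by
    have := Real.pi_ne_zero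
    simp [this]
  have hpi' : (2 * Real.pi) ≠ 0 := by positivity
  have : {z | ∃ r t, z = E r t ∧ (r, t) ∈ W} =
      Complex.exp '' ((fun w : ℂ => (w.re, w.im / (2 * Real.pi))) ⁻¹' W) := by
    ext z
    constructor
    · rintro ⟨r, t, rfl, h⟩
      refine ⟨r + 2 * Real.pi * t * Complex.I, ?_, rfl⟩
      simp only [mem_preimage]
      convert h using 2
      · simp
      · simp
    · rintro ⟨w, hw, rfl⟩
      refine ⟨w.re, w.im / (2 * Real.pi), ?_, hw⟩
      unfold E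
      congr 1
      push_cast
      rw [mul_div_cancel₀ _ hpi]
      exact (Complex.re_add_im _).symm
  rw [this]
  exact Complex.isOpenMap_exp _ (hW.preimage (by fun_prop))

theorem isOpen_Ou (hc : Continuous φ) : IsOpen (Ou φ) :=
  isOpen_image_E (W := {p | φ p.2 < p.1}) (isOpen_lt (hc.comp continuous_snd) continuous_fst)

theorem isOpen_In (hc : Continuous φ) (hp : Function.Periodic φ 1) : IsOpen (In φ) := by
  obtain ⟨B, hB⟩ := exists_bound hc hp
  have : In φ = Metric.ball 0 (Real.exp (-B)) ∪ {z | ∃ r t, z = E r t ∧ r < φ t} := by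
    ext z
    constructor
    · intro h
      by_cases hz : z = 0
      · left
        simp [hz, Real.exp_pos]
      · obtain ⟨r, t, rfl⟩ := exists_E hz
        exact Or.inr ⟨r, t, rfl, h r t rfl⟩
    · rintro (h | ⟨r, t, rfl, h⟩)
      · rintro r t rfl
        rw [mem_ball_zero_iff, norm_E, Real.exp_lt_exp] at h
        exact h.trans_le (hB t).1
      · exact (E_mem_In hp).2 h
  rw [this]
  exact Metric.isOpen_ball.union (isOpen_image_E (W := {p | p.1 < φ p.2})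
    (isOpen_lt continuous_fst (hc.comp continuous_snd)))

theorem starConvex_In : StarConvex ℝ (0 : ℂ) (In φ) := by
  intro z hz a b ha hb hab r t e
  rw [smul_zero, zero_add] at e
  have hb0 : b ≠ 0 := by
    rintro rfl
    rw [zero_smul] at e
    exact E_ne_zero r t e.symm
  have hb1 : 0 < b := lt_of_le_of_ne hb hb0.symm
  have h1 : z = E (-Real.log b + r) t := by
    rw [← smul_E, ← e, Real.exp_neg, Real.exp_log hb1]
    have : (b : ℂ) ≠ 0 := by exact_mod_cast hb0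
    simp [this]
  have h2 := hz _ _ h1
  have h3 : Real.log b ≤ 0 := Real.log_nonpos hb (by linarith)
  linarith

theorem isPreconnected_above {lo : ℝ → ℝ} (hc : Continuous lo) {J : Set ℝ}
    (hJ : IsPreconnected J) : IsPreconnected {z | ∃ r t, t ∈ J ∧ z = E r t ∧ lo t < r} := by
  have : {z | ∃ r t, t ∈ J ∧ z = E r t ∧ lo t < r} =
      (fun p : ℝ × ℝ => E (lo p.1 + p.2) p.1) '' (J ×ˢ Ioi 0) := by
    ext z
    constructor
    · rintro ⟨r, t, h1, rfl, h2⟩
      exact ⟨(t, r - lo t), ⟨h1, by simpa using h2⟩, by simp⟩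
    · rintro ⟨⟨t, s⟩, ⟨h1, h2⟩, rfl⟩
      exact ⟨_, t, h1, rfl, by simpa using h2⟩
  rw [this]
  refine (hJ.prod isPreconnected_Ioi).image _ (Continuous.continuousOn ?_)
  exact continuous_E.comp (f := fun p : ℝ × ℝ => (lo p.1 + p.2, p.1)) (by fun_prop)

theorem isPreconnected_between {lo hi : ℝ → ℝ} (hc : Continuous lo) (hc' : Continuous hi)
    {J : Set ℝ} (hJ : IsPreconnected J) (hlt : ∀ t ∈ J, lo t < hi t) :
    IsPreconnected {z | ∃ r t, t ∈ J ∧ z = E r t ∧ lo t < r ∧ r < hi t} := by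
  have : {z | ∃ r t, t ∈ J ∧ z = E r t ∧ lo t < r ∧ r < hi t} =
      (fun p : ℝ × ℝ => E (lo p.1 + p.2 * (hi p.1 - lo p.1)) p.1) '' (J ×ˢ Ioo 0 1) := by
    ext z
    constructor
    · rintro ⟨r, t, h1, rfl, h2, h3⟩
      have h4 : 0 < hi t - lo t := by linarith
      refine ⟨(t, (r - lo t) / (hi t - lo t)), ⟨h1, div_pos (by linarith) h4,
        (div_lt_one h4).2 (by linarith)⟩, ?_⟩
      simp [div_mul_cancel₀ _ h4.ne']
    · rintro ⟨⟨t, s⟩, ⟨h1, h2, h3⟩, rfl⟩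
      have h4 := hlt t h1
      refine ⟨_, t, h1, rfl, ?_, ?_⟩
      · simp only at h2 ⊢
        nlinarith
      · simp only at h3 ⊢
        nlinarith
  rw [this]
  refine (hJ.prod isPreconnected_Ioo).image _ (Continuous.continuousOn ?_)
  exact continuous_E.comp (f := fun p : ℝ × ℝ => (lo p.1 + p.2 * (hi p.1 - lo p.1), p.1))
    (by fun_prop)

theorem isPreconnected_Ou (hc : Continuous φ) : IsPreconnected (Ou φ) := by
  have := isPreconnected_above hc (J := univ) isPreconnected_univ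
  simpa [Ou] using this

theorem isPreconnected_In : IsPreconnected (In φ) :=
  (starConvex_In.isPathConnected zero_mem_In).isConnected.isPreconnected

theorem bounded_In (hc : Continuous φ) (hp : Function.Periodic φ 1) :
    Bornology.IsBounded (In φ) := by
  obtain ⟨B, hB⟩ := exists_bound hc hp
  refine (Metric.isBounded_closedBall (x := (0 : ℂ)) (r := Real.exp B)).subset fun z h => ?_
  by_cases hz : z = 0
  · simp [hz, (Real.exp_pos B).le]
  · obtain ⟨r, t, rfl⟩ := exists_E hz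
    rw [mem_closedBall_zero_iff, norm_E, Real.exp_le_exp]
    exact (h r t rfl).le.trans (hB t).2

theorem not_bounded_Ou : ¬ Bornology.IsBounded (Ou φ) := by
  intro h
  obtain ⟨B, hB⟩ := h.exists_norm_le
  have := hB (E (|φ 0| + |B| + 1) 0) ⟨_, _, rfl, by
    have := le_abs_self (φ 0)
    have := abs_nonneg B
    linarith⟩
  rw [norm_E] at this
  have h2 := Real.add_one_le_exp (|φ 0| + |B| + 1)
  have := le_abs_self B
  have := abs_nonneg (φ 0)
  linarith

theorem comp_In (hc : Continuous φ) (hp : Function.Periodic φ 1) {p : ℂ} (h : p ∈ In φ) :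
    connectedComponentIn (Cu φ)ᶜ p = In φ := by
  rw [compl_Cu hp]
  refine subset_antisymm ?_ (isPreconnected_In.subset_connectedComponentIn h subset_union_left)
  exact isPreconnected_connectedComponentIn.subset_left_of_subset_union (isOpen_In hc hp)
    (isOpen_Ou hc) (disjoint_In_Ou hp) (connectedComponentIn_subset _ _)
    ⟨p, mem_connectedComponentIn (Or.inl h), h⟩

theorem comp_Ou (hc : Continuous φ) (hp : Function.Periodic φ 1) {p : ℂ} (h : p ∈ Ou φ) :
    connectedComponentIn (Cu φ)ᶜ p = Ou φ := by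
  rw [compl_Cu hp]
  refine subset_antisymm ?_
    ((isPreconnected_Ou hc).subset_connectedComponentIn h subset_union_right)
  exact isPreconnected_connectedComponentIn.subset_right_of_subset_union (isOpen_In hc hp)
    (isOpen_Ou hc) (disjoint_In_Ou hp) (connectedComponentIn_subset _ _)
    ⟨p, mem_connectedComponentIn (Or.inr h), h⟩

theorem In_eq (hc : Continuous φ) (hp : Function.Periodic φ 1) :
    In φ = {p : ℂ | p ∉ Cu φ ∧ Bornology.IsBounded (connectedComponentIn (Cu φ)ᶜ p)} := by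
  ext p
  constructor
  · intro h
    refine ⟨?_, by rw [comp_In hc hp h]; exact bounded_In hc hp⟩
    rw [← mem_compl_iff, compl_Cu hp]
    exact Or.inl h
  · rintro ⟨h1, h2⟩
    rw [← mem_compl_iff, compl_Cu hp] at h1
    rcases h1 with h1 | h1
    · exact h1
    · rw [comp_Ou hc hp h1] at h2
      exact absurd h2 not_bounded_Ou

theorem Ou_eq (hc : Continuous φ) (hp : Function.Periodic φ 1) :
    Ou φ = {p : ℂ | p ∉ Cu φ ∧ ¬ Bornology.IsBounded (connectedComponentIn (Cu φ)ᶜ p)} := by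
  ext p
  constructor
  · intro h
    refine ⟨?_, by rw [comp_Ou hc hp h]; exact not_bounded_Ou⟩
    rw [← mem_compl_iff, compl_Cu hp]
    exact Or.inr h
  · rintro ⟨h1, h2⟩
    rw [← mem_compl_iff, compl_Cu hp] at h1
    rcases h1 with h1 | h1
    · rw [comp_In hc hp h1] at h2
      exact absurd (bounded_In hc hp) h2
    · exact h1

theorem region_connected {ι : Type*} [Fintype ι] [DecidableEq ι] (ψ : ι → ℝ → ℝ)
    (hc : ∀ i, Continuous (ψ i)) (hp : ∀ i, Function.Periodic (ψ i) 1) (S : Finset ι)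
    (J : Set ℝ) (hJ : IsConnected J) (hJ1 : ∀ t ∈ J, ∀ i ∈ S, ∀ j ∉ S, ψ j t < ψ i t)
    (hJ2 : ∀ t, (∀ i ∈ S, ∀ j ∉ S, ψ j t < ψ i t) → ∃ k : ℤ, t + k ∈ J) :
    IsConnected ((⋂ i ∈ S, In (ψ i)) ∩ ⋂ i ∈ Sᶜ, Ou (ψ i)) := by
  rcases (Sᶜ).eq_empty_or_nonempty with h0 | h0
  · rw [h0]
    simp only [Finset.notMem_empty, iInter_of_empty, iInter_univ, inter_univ]
    refine (StarConvex.isPathConnected (a := (0 : ℂ)) ?_ ?_).isConnected
    · exact starConvex_iInter fun i => starConvex_iInter fun _ => starConvex_In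
    · exact mem_iInter₂.2 fun _ _ => zero_mem_In
  let lo : ℝ → ℝ := fun t => (Sᶜ).sup' h0 fun j => ψ j t
  have hlo : Continuous lo := Continuous.finset_sup'_apply h0 fun j _ => hc j
  have hlo' : ∀ t r, lo t < r ↔ ∀ j ∉ S, ψ j t < r := by
    intro t r
    simp only [lo, Finset.sup'_lt_iff, Finset.mem_compl]
  have hmem : ∀ z, z ∈ (⋂ i ∈ S, In (ψ i)) ∩ ⋂ i ∈ Sᶜ, Ou (ψ i) ↔
      ∃ r t, t ∈ J ∧ z = E r t ∧ lo t < r ∧ ∀ i ∈ S, r < ψ i t := by
    intro z
    simp only [mem_inter_iff, mem_iInter, Finset.mem_compl]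
    constructor
    · rintro ⟨h1, h2⟩
      have hz : z ≠ 0 := by
        rintro rfl
        obtain ⟨j, hj⟩ := h0
        exact zero_not_mem_Ou (h2 j (Finset.mem_compl.1 hj))
      obtain ⟨r, t, rfl⟩ := exists_E hz
      simp only [E_mem_In (hp _), E_mem_Ou (hp _)] at h1 h2
      obtain ⟨k, hk⟩ := hJ2 t fun i hi j hj => (h2 j hj).trans (h1 i hi)
      refine ⟨r, t + k, hk, (E_add_int r t k).symm, (hlo' _ _).2 fun j hj => ?_, fun i hi => ?_⟩
      · rw [per_int (hp j)]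
        exact h2 j hj
      · rw [per_int (hp i)]
        exact h1 i hi
    · rintro ⟨r, t, h1, rfl, h2, h3⟩
      simp only [E_mem_In (hp _), E_mem_Ou (hp _)]
      exact ⟨h3, (hlo' _ _).1 h2⟩
  obtain ⟨t₀, ht₀⟩ := hJ.nonempty
  rcases S.eq_empty_or_nonempty with h1 | h1
  · have : ((⋂ i ∈ S, In (ψ i)) ∩ ⋂ i ∈ Sᶜ, Ou (ψ i)) =
        {z | ∃ r t, t ∈ J ∧ z = E r t ∧ lo t < r} := by
      ext z
      rw [hmem]
      simp [h1]
    rw [this]
    exact ⟨⟨_, lo t₀ + 1, t₀, ht₀, rfl, by linarith⟩, isPreconnected_above hlo hJ.isPreconnected⟩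
  let hi : ℝ → ℝ := fun t => S.inf' h1 fun j => ψ j t
  have hhi : Continuous hi := Continuous.finset_inf'_apply h1 fun j _ => hc j
  have hhi' : ∀ t r, r < hi t ↔ ∀ i ∈ S, r < ψ i t := by
    intro t r
    simp only [hi, Finset.lt_inf'_iff]
  have hlt : ∀ t ∈ J, lo t < hi t := fun t ht =>
    (hhi' _ _).2 fun i hi => (hlo' _ _).2 fun j hj => hJ1 t ht i hi j hj
  have : ((⋂ i ∈ S, In (ψ i)) ∩ ⋂ i ∈ Sᶜ, Ou (ψ i)) =
      {z | ∃ r t, t ∈ J ∧ z = E r t ∧ lo t < r ∧ r < hi t} := by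
    ext z
    rw [hmem]
    simp only [hhi', mem_setOf_eq]
  rw [this]
  have := hlt t₀ ht₀
  exact ⟨⟨_, (lo t₀ + hi t₀) / 2, t₀, ht₀, rfl, by linarith, by linarith⟩,
    isPreconnected_between hlo hhi hJ.isPreconnected hlt⟩

theorem near_E {U : Set ℂ} {ρ τ : ℝ → ℝ} {x : ℝ} (h1 : Continuous ρ) (h2 : Continuous τ)
    (hU : U ∈ 𝓝 (E (ρ x) (τ x))) : ∀ᶠ y in 𝓝 x, E (ρ y) (τ y) ∈ U := by
  have : Continuous fun y => E (ρ y) (τ y) :=
    continuous_E.comp (f := fun y => (ρ y, τ y)) (by fun_prop)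
  exact this.continuousAt.preimage_mem_nhds hU

/-- The Venn diagram given by the rotations of one radius function. -/
theorem polar (n : ℕ) (Φ : ℝ → ℝ) (hc : Continuous Φ) (hp : Function.Periodic Φ 1)
    (ψ : Fin n → ℝ → ℝ) (hψ : ∀ i t, ψ i t = Φ (t - (i : ℕ) / n))
    (h1 : ∀ S : Finset (Fin n), ∃ J : Set ℝ, IsConnected J ∧
      (∀ t ∈ J, ∀ i ∈ S, ∀ j ∉ S, ψ j t < ψ i t) ∧
      ∀ t, (∀ i ∈ S, ∀ j ∉ S, ψ j t < ψ i t) → ∃ k : ℤ, t + k ∈ J)
    (h2 : ∀ i j, i ≠ j → {t | 0 ≤ t ∧ t < 1 ∧ ψ i t = ψ j t}.Finite)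
    (h3 : ∀ i j k t, i ≠ j → j ≠ k → i ≠ k → ψ i t = ψ j t → ψ j t = ψ k t → False)
    (h4 : ∀ i j t, i ≠ j → ψ i t = ψ j t → ∃ᶠ y in 𝓝 t, ψ j y < ψ i y) :
    ∃ (γ : ℝ → ℂ) (c : ℂ) (K Ins Out : Fin n → Set ℂ),
      Continuous γ ∧ Function.Periodic γ 1 ∧ Set.InjOn γ (Set.Ico 0 1) ∧
      (∀ i : Fin n, K i = Set.range (fun t : ℝ =>
          c + Complex.exp (2 * (Real.pi : ℂ) * Complex.I * ((i : ℕ) : ℂ) / (n : ℂ)) * (γ t - c))) ∧
      (∀ i : Fin n, Ins i = {p : ℂ | p ∉ K i ∧ Bornology.IsBounded (connectedComponentIn (K i)ᶜ p)}) ∧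
      (∀ i : Fin n, Out i = {p : ℂ | p ∉ K i ∧ ¬ Bornology.IsBounded (connectedComponentIn (K i)ᶜ p)}) ∧
      (∀ S : Finset (Fin n), IsConnected ((⋂ i ∈ S, Ins i) ∩ ⋂ i ∈ Sᶜ, Out i)) ∧
      (∀ i j : Fin n, i ≠ j → (K i ∩ K j).Finite) ∧
      (∀ i j k : Fin n, i ≠ j → j ≠ k → i ≠ k → K i ∩ K j ∩ K k = ∅) ∧
      (∀ i j : Fin n, i ≠ j → ∀ p ∈ K i ∩ K j, ∀ U ∈ nhds p,
          (U ∩ Ins i ∩ Ins j).Nonempty ∧ (U ∩ Ins i ∩ Out j).Nonempty ∧
          (U ∩ Out i ∩ Ins j).Nonempty ∧ (U ∩ Out i ∩ Out j).Nonempty) := by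
  have hc' : ∀ i, Continuous (ψ i) := by
    intro i
    rw [show ψ i = fun t => Φ (t - (i : ℕ) / n) from funext (hψ i)]
    fun_prop
  have hp' : ∀ i, Function.Periodic (ψ i) 1 := by
    intro i t
    rw [hψ, hψ, show t + 1 - ((i : ℕ) : ℝ) / n = t - (i : ℕ) / n + 1 by ring, hp]
  refine ⟨fun t => E (Φ t) t, 0, fun i => Cu (ψ i), fun i => In (ψ i), fun i => Ou (ψ i),
    continuous_E.comp (f := fun y => (Φ y, y)) (by fun_prop), ?_, ?_, ?_,
    fun i => In_eq (hc' i) (hp' i), fun i => Ou_eq (hc' i) (hp' i), ?_, ?_, ?_, ?_⟩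
  · intro t
    have := E_add_int (Φ t) t 1
    simpa [hp t] using this
  · intro t ht t' ht' h
    obtain ⟨-, k, hk⟩ := E_eq h
    have a1 : (k : ℝ) < 1 := by linarith [ht.2, ht'.1]
    have a2 : (-1 : ℝ) < k := by linarith [ht.1, ht'.2]
    have b1 : k < 1 := by exact_mod_cast a1
    have b2 : -1 < k := by exact_mod_cast a2
    obtain rfl : k = 0 := by omega
    simpa using hk
  · intro i
    have key : ∀ t : ℝ, 0 + Complex.exp (2 * (Real.pi : ℂ) * Complex.I * ((i : ℕ) : ℂ) / (n : ℂ)) *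
        (E (Φ t) t - 0) = E (ψ i (t + (i : ℕ) / n)) (t + (i : ℕ) / n) := by
      intro t
      rw [hψ, add_sub_cancel_right, zero_add, sub_zero]
      unfold E
      rw [← Complex.exp_add]
      congr 1
      push_cast
      ring
    simp only [key]
    ext z
    constructor
    · rintro ⟨t, rfl⟩
      exact ⟨t - (i : ℕ) / n, by simp⟩
    · rintro ⟨t, rfl⟩
      exact ⟨_, rfl⟩
  · intro S
    obtain ⟨J, a1, a2, a3⟩ := h1 S
    exact region_connected ψ hc' hp' S J a1 a2 a3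
  · intro i j hij
    refine ((h2 i j hij).image fun t => E (ψ i t) t).subset ?_
    rintro z ⟨⟨t, rfl⟩, hz⟩
    rw [E_mem_Cu (hp' j)] at hz
    have e : Int.fract t = t + ((-⌊t⌋ : ℤ) : ℝ) := by
      rw [Int.fract]
      push_cast
      ring
    refine ⟨Int.fract t, ⟨Int.fract_nonneg t, Int.fract_lt_one t, ?_⟩, ?_⟩
    · rw [e, per_int (hp' i), per_int (hp' j), hz]
    · simp only
      rw [e, per_int (hp' i), E_add_int]
  · intro i j k hij hjk hik
    ext z
    simp only [mem_inter_iff, mem_empty_iff_false, iff_false]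
    rintro ⟨⟨⟨t, rfl⟩, a1⟩, a2⟩
    rw [E_mem_Cu (hp' _)] at a1 a2
    exact h3 i j k t hij hjk hik a1 (a1 ▸ a2)
  · rintro i j hij p ⟨⟨t, rfl⟩, hz⟩ U hU
    rw [E_mem_Cu (hp' j)] at hz
    simp only at hU
    have hv := near_E (ρ := fun y => y) (τ := fun _ => t) (x := ψ i t) continuous_id
      continuous_const hU
    have hm := near_E (ρ := fun y => (ψ i y + ψ j y) / 2) (τ := fun y => y) (x := t) (U := U)
      (by have := hc' i; have := hc' j; fun_prop) continuous_id (by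
        rwa [← hz, add_self_div_two])
    refine ⟨?_, ?_, ?_, ?_⟩
    · obtain ⟨r, a1, a2⟩ := ((frequently_lt_nhds (ψ i t)).and_eventually hv).exists
      exact ⟨_, ⟨a2, (E_mem_In (hp' i)).2 a1⟩, (E_mem_In (hp' j)).2 (hz ▸ a1)⟩
    · obtain ⟨y, a1, a2⟩ := ((h4 i j t hij hz).and_eventually hm).exists
      exact ⟨_, ⟨a2, (E_mem_In (hp' i)).2 (by linarith)⟩, (E_mem_Ou (hp' j)).2 (by linarith)⟩
    · obtain ⟨y, a1, a2⟩ := ((h4 j i t hij.symm hz.symm).and_eventually hm).exists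
      exact ⟨_, ⟨a2, (E_mem_Ou (hp' i)).2 (by linarith)⟩, (E_mem_In (hp' j)).2 (by linarith)⟩
    · obtain ⟨r, a1, a2⟩ := ((frequently_gt_nhds (ψ i t)).and_eventually hv).exists
      exact ⟨_, ⟨a2, (E_mem_Ou (hp' i)).2 a1⟩, (E_mem_Ou (hp' j)).2 (hz ▸ a1)⟩

end Pool.Agent.Lib.MP_80d9dd_co
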