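import Mathlib

set_option autoImplicit false
set_option linter.unusedSimpArgs false

namespace Pool.Agent.Lib.MP_80d9dd_co

variable {α : Type*}

/-- `S` meets the list `l` in an initial segment. -/
def Ch (l : List α) (S : Set α) : Prop := l.Pairwise (fun a b => b ∈ S → a ∈ S)

/-- No member of the list is in `S`. -/
def Emp (l : List α) (S : Set α) : Prop := ∀ y ∈ l, y ∉ S

/-- Every member of the list is in `S`. -/
def Ful (l : List α) (S : Set α) : Prop := ∀ y ∈ l, y ∈ S

@[simp] theorem emp_nil (S : Set α) : Emp [] S := by simp [Emp]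
@[simp] theorem ful_nil (S : Set α) : Ful [] S := by simp [Ful]
@[simp] theorem ch_nil (S : Set α) : Ch [] S := by simp [Ch]

@[simp] theorem emp_cons (a : α) (l : List α) (S : Set α) :
    Emp (a :: l) S ↔ a ∉ S ∧ Emp l S := by simp [Emp]

@[simp] theorem ful_cons (a : α) (l : List α) (S : Set α) :
    Ful (a :: l) S ↔ a ∈ S ∧ Ful l S := by simp [Ful]

@[simp] theorem emp_append (l l' : List α) (S : Set α) :
    Emp (l ++ l') S ↔ Emp l S ∧ Emp l' S := by
  simp [Emp, or_imp, forall_and]

@[simp] theorem ful_append (l l' : List α) (S : Set α) :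
    Ful (l ++ l') S ↔ Ful l S ∧ Ful l' S := by
  simp [Ful, or_imp, forall_and]

theorem ch_cons (a : α) (l : List α) (S : Set α) :
    Ch (a :: l) S ↔ Ch l S ∧ (a ∈ S ∨ Emp l S) := by
  simp only [Ch, List.pairwise_cons, Emp]
  constructor
  · rintro ⟨h1, h2⟩
    refine ⟨h2, ?_⟩
    by_cases ha : a ∈ S
    · exact Or.inl ha
    · exact Or.inr fun y hy hyS => ha (h1 y hy hyS)
  · rintro ⟨h2, h1 | h1⟩
    · exact ⟨fun _ _ _ => h1, h2⟩
    · exact ⟨fun y hy hyS => absurd hyS (h1 y hy), h2⟩

theorem ch_append (l l' : List α) (S : Set α) :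
    Ch (l ++ l') S ↔ Ch l S ∧ Ch l' S ∧ (Ful l S ∨ Emp l' S) := by
  simp only [Ch, List.pairwise_append, Ful, Emp]
  constructor
  · rintro ⟨h1, h2, h3⟩
    refine ⟨h1, h2, ?_⟩
    by_cases h : ∀ y ∈ l', y ∉ S
    · exact Or.inr h
    · push Not at h
      obtain ⟨y, hy, hyS⟩ := h
      exact Or.inl fun a ha => h3 a ha y hy hyS
  · rintro ⟨h1, h2, h3 | h3⟩
    · exact ⟨h1, h2, fun a ha _ _ _ => h3 a ha⟩
    · exact ⟨h1, h2, fun a _ b hb hbS => absurd hbS (h3 b hb)⟩

theorem ch_single (a : α) (S : Set α) : Ch [a] S := by simp [Ch]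

theorem ch_snoc (l : List α) (a : α) (S : Set α) :
    Ch (l ++ [a]) S ↔ Ch l S ∧ (Ful l S ∨ a ∉ S) := by
  simp [ch_append, ch_single]

theorem Emp.ch {l : List α} {S : Set α} (h : Emp l S) : Ch l S := by
  induction l with
  | nil => simp
  | cons a l ih =>
    rw [emp_cons] at h
    exact (ch_cons _ _ _).2 ⟨ih h.2, Or.inr h.2⟩

theorem Ful.ch {l : List α} {S : Set α} (h : Ful l S) : Ch l S := by
  induction l with
  | nil => simp
  | cons a l ih =>
    rw [ful_cons] at h
    exact (ch_cons _ _ _).2 ⟨ih h.2, Or.inl h.1⟩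

theorem emp_perm {l l' : List α} (h : l.Perm l') (S : Set α) : Emp l S ↔ Emp l' S := by
  simp [Emp, h.mem_iff]

theorem ful_perm {l l' : List α} (h : l.Perm l') (S : Set α) : Ful l S ↔ Ful l' S := by
  simp [Ful, h.mem_iff]

/-- A sweep: a walk through orders by adjacent swaps, in which the sets met as initial segments
form the family `Q`, and no set is met again after it has been left. -/
inductive Sw : List α → List α → (Set α → Prop) → Prop
  | refl (l : List α) : Sw l l (Ch l)
  | swap (p : List α) (a b : α) (s : List α) :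
      Sw (p ++ a :: b :: s) (p ++ b :: a :: s)
        (fun S => Ch (p ++ a :: b :: s) S ∨ Ch (p ++ b :: a :: s) S)
  | trans {l l₁ l₂ : List α} {Q R : Set α → Prop} : Sw l l₁ Q → Sw l₁ l₂ R →
      (∀ S, Q S → R S → Ch l₁ S) → Sw l l₂ (fun S => Q S ∨ R S)

theorem Sw.congr {l l' : List α} {Q R : Set α → Prop} (h : Sw l l' Q) (hQ : ∀ S, Q S ↔ R S) :
    Sw l l' R := by
  have : Q = R := funext fun S => propext (hQ S)
  exact this ▸ h

theorem Sw.symm {l l' : List α} {Q : Set α → Prop} (h : Sw l l' Q) : Sw l' l Q := by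
  induction h with
  | refl l => exact Sw.refl l
  | swap p a b s => exact (Sw.swap p b a s).congr fun S => or_comm
  | trans _ _ h ih1 ih2 =>
    exact (Sw.trans ih2 ih1 fun S h1 h2 => h S h2 h1).congr fun S => or_comm

theorem Sw.perm {l l' : List α} {Q : Set α → Prop} (h : Sw l l' Q) : l.Perm l' := by
  induction h with
  | refl l => exact List.Perm.refl l
  | swap p a b s => exact List.Perm.append_left p (List.Perm.swap b a s)
  | trans _ _ _ ih1 ih2 => exact ih1.trans ih2

theorem Sw.start {l l' : List α} {Q : Set α → Prop} (h : Sw l l' Q) {S : Set α} (hS : Ch l S) :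
    Q S := by
  induction h with
  | refl l => exact hS
  | swap p a b s => exact Or.inl hS
  | trans _ _ _ ih1 _ => exact Or.inl (ih1 hS)

theorem Sw.finish {l l' : List α} {Q : Set α → Prop} (h : Sw l l' Q) {S : Set α}
    (hS : Ch l' S) : Q S := h.symm.start hS

theorem Sw.front {l l' : List α} {Q : Set α → Prop} (h : Sw l l' Q) (c : α) :
    Sw (c :: l) (c :: l') (fun S => Q S ∧ (c ∈ S ∨ Emp l S)) := by
  induction h with
  | refl l => exact (Sw.refl _).congr fun S => ch_cons _ _ _
  | swap p a b s =>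
    refine (Sw.swap (c :: p) a b s).congr fun S => ?_
    have hp := emp_perm (List.Perm.append_left p (List.Perm.swap b a s)) S
    simp only [List.cons_append, ch_cons]
    grind
  | trans h1 h2 h ih1 ih2 =>
    refine (Sw.trans ih1 ih2 fun S hQ hR => ?_).congr fun S => ?_
    · exact (ch_cons _ _ _).2 ⟨h S hQ.1 hR.1, hR.2⟩
    · have hp := emp_perm h1.perm S
      grind

theorem Sw.back {l l' : List α} {Q : Set α → Prop} (h : Sw l l' Q) (c : α) :
    Sw (l ++ [c]) (l' ++ [c]) (fun S => Q S ∧ (Ful l S ∨ c ∉ S)) := by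
  induction h with
  | refl l => exact (Sw.refl _).congr fun S => ch_snoc _ _ _
  | swap p a b s =>
    have := Sw.swap p a b (s ++ [c])
    have e1 : p ++ a :: b :: (s ++ [c]) = (p ++ a :: b :: s) ++ [c] := by simp
    have e2 : p ++ b :: a :: (s ++ [c]) = (p ++ b :: a :: s) ++ [c] := by simp
    rw [e1, e2] at this
    refine this.congr fun S => ?_
    have hp := ful_perm (List.Perm.append_left p (List.Perm.swap b a s)) S
    simp only [ch_snoc]
    grind
  | trans h1 h2 h ih1 ih2 =>
    refine (Sw.trans ih1 ih2 fun S hQ hR => ?_).congr fun S => ?_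
    · exact (ch_snoc _ _ _).2 ⟨h S hQ.1 hR.1, hR.2⟩
    · have hp := ful_perm h1.perm S
      grind

/-- One wire crosses all the others. -/
theorem ladder (l : List α) (c : α) : Sw (l ++ [c]) (c :: l) (Ch l) := by
  induction l with
  | nil => exact (Sw.refl [c]).congr fun S => by simp [ch_single]
  | cons a l ih =>
    refine (Sw.trans (ih.front a) (Sw.swap [] a c l) fun S h1 h2 => ?_).congr fun S => ?_
    · simp only [List.nil_append, ch_cons, emp_append, emp_cons, emp_nil] at *
      grind
    · have := @Emp.ch _ l S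
      simp only [List.nil_append, ch_cons, emp_append, emp_cons, emp_nil] at *
      grind

/-- Sweep with `c` outside, let `c` cross, and sweep back with `c` inside. -/
theorem Sw.double {l l' : List α} {Q : Set α → Prop} (h : Sw l l' Q) (c : α) :
    Sw (l ++ [c]) (c :: l) Q := by
  have hp := h.perm
  refine (Sw.trans (Sw.trans (h.back c) (ladder l' c) fun S h1 h2 => ?_) (h.symm.front c)
    fun S h1 h2 => ?_).congr fun S => ?_
  · have := ful_perm hp S
    rw [ch_snoc]
    grind
  · have := ful_perm hp S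
    have := @Ful.ch _ l' S
    have := @Emp.ch _ l' S
    rw [ch_cons]
    grind
  · have := @Sw.finish _ _ _ _ h S
    grind

/-- The product with a chain of three states. -/
theorem Sw.triple {l l' : List α} {Q : Set α → Prop} (h : Sw l l' Q) (a b : α) :
    Sw (l ++ [a, b]) (a :: b :: l') (fun S => Q S ∧ (b ∈ S → a ∈ S)) := by
  have hp := h.perm
  have e : l ++ [a, b] = (l ++ [a]) ++ [b] := by simp
  rw [e]
  refine (Sw.trans (Sw.trans ((h.double a).back b) ((ladder l b).front a) fun S h1 h2 => ?_)
    ((h.front b).front a) fun S h1 h2 => ?_).congr fun S => ?_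
  · have := @Ful.ch _ l S
    simp only [List.cons_append, ch_cons, ch_snoc, ful_append, ful_cons, ful_nil, emp_append,
      emp_cons, emp_nil] at *
    grind
  · have := @Ful.ch _ l S
    have := @Emp.ch _ l S
    simp only [List.cons_append, ch_cons, ch_snoc, ful_append, ful_cons, ful_nil, emp_append,
      emp_cons, emp_nil] at *
    grind
  · have := @Sw.start _ _ _ _ h S
    have := @Ful.ch _ l S
    have := @Emp.ch _ l S
    simp only [List.cons_append, ch_cons, ch_snoc, ful_append, ful_cons, ful_nil, emp_append,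
      emp_cons, emp_nil] at *
    grind

/-- The passage between two neighbouring pieces. -/
theorem transit (c a b : α) (R : List α) :
    Sw (c :: a :: b :: R) (b :: c :: (R ++ [a]))
      (fun S => Ch (c :: a :: b :: R) S ∨ Ch (b :: c :: (R ++ [a])) S) := by
  refine (Sw.trans (Sw.trans (Sw.swap [c] a b R) (Sw.swap [] c b (a :: R)) fun S h1 h2 => ?_)
    (((ladder R a).symm.front c).front b) fun S h1 h2 => ?_).congr fun S => ?_
  · have := @Ful.ch _ R S
    have := @Emp.ch _ R S
    simp only [List.cons_append, List.nil_append, ch_cons, ch_snoc, ful_append, ful_cons, ful_nil,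
      emp_append, emp_cons, emp_nil] at *
    grind
  · have := @Ful.ch _ R S
    have := @Emp.ch _ R S
    simp only [List.cons_append, List.nil_append, ch_cons, ch_snoc, ful_append, ful_cons, ful_nil,
      emp_append, emp_cons, emp_nil] at *
    grind
  · have := @Ful.ch _ R S
    have := @Emp.ch _ R S
    simp only [List.cons_append, List.nil_append, ch_cons, ch_snoc, ful_append, ful_cons, ful_nil,
      emp_append, emp_cons, emp_nil] at *
    grind

/-- Two orders differ by one adjacent swap. -/
def Adj (l l' : List α) : Prop :=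
  ∃ (p : List α) (a b : α) (s : List α), l = p ++ a :: b :: s ∧ l' = p ++ b :: a :: s

/-- The walk behind a sweep. -/
theorem Sw.walk {l l' : List α} {Q : Set α → Prop} (h : Sw l l' Q) :
    ∃ (M : ℕ) (f : ℕ → List α), f 0 = l ∧ f M = l' ∧ (∀ t < M, Adj (f t) (f (t + 1))) ∧
      (∀ S, Q S ↔ ∃ t ≤ M, Ch (f t) S) ∧
      (∀ S t₁ t₂ t₃, t₁ ≤ t₂ → t₂ ≤ t₃ → t₃ ≤ M → Ch (f t₁) S → Ch (f t₃) S → Ch (f t₂) S) := by
  induction h with
  | refl l =>
    exact ⟨0, fun _ => l, rfl, rfl, fun t ht => absurd ht (Nat.not_lt_zero t),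
      fun S => ⟨fun h => ⟨0, le_rfl, h⟩, fun ⟨_, _, h⟩ => h⟩, fun _ _ _ _ _ _ _ h _ => h⟩
  | swap p a b s =>
    refine ⟨1, fun t => if t = 0 then p ++ a :: b :: s else p ++ b :: a :: s, by simp, by simp,
      ?_, ?_, ?_⟩
    · intro t ht
      obtain rfl : t = 0 := by omega
      exact ⟨p, a, b, s, by simp, by simp⟩
    · intro S
      constructor
      · rintro (h | h)
        · exact ⟨0, by omega, by simpa using h⟩
        · exact ⟨1, le_rfl, by simpa using h⟩
      · rintro ⟨t, -, h⟩
        by_cases ht : t = 0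
        · left; simpa [ht] using h
        · right; simpa [ht] using h
    · intro S t₁ t₂ t₃ h12 h23 h3 h1 h3'
      by_cases ht : t₂ = 0
      · obtain rfl : t₁ = t₂ := by omega
        exact h1
      · obtain rfl : t₃ = t₂ := by omega
        exact h3'
  | @trans l l₁ l₂ Q R _ _ h ih1 ih2 =>
    obtain ⟨M, f, f0, fM, fa, fQ, fc⟩ := ih1
    obtain ⟨N, g, g0, gN, ga, gQ, gc⟩ := ih2
    have e1 : ∀ t, t ≤ M → (if t ≤ M then f t else g (t - M)) = f t := fun t ht => if_pos ht
    have e2 : ∀ t, M ≤ t → (if t ≤ M then f t else g (t - M)) = g (t - M) := by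
      intro t ht
      by_cases h' : t ≤ M
      · obtain rfl : t = M := by omega
        simp [fM, g0]
      · exact if_neg h'
    refine ⟨M + N, fun t => if t ≤ M then f t else g (t - M), ?_, ?_, ?_, ?_, ?_⟩
    · simp [f0]
    · beta_reduce
      rw [e2 _ (by omega)]
      simpa using gN
    · intro t ht
      beta_reduce
      by_cases h' : t < M
      · rw [e1 t (by omega), e1 (t + 1) (by omega)]
        exact fa t h'
      · rw [e2 t (by omega), e2 (t + 1) (by omega)]
        have : t + 1 - M = t - M + 1 := by omega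
        rw [this]
        exact ga _ (by omega)
    · intro S
      beta_reduce
      constructor
      · rintro (hS | hS)
        · obtain ⟨t, ht, hc⟩ := (fQ S).1 hS
          exact ⟨t, by omega, by rwa [e1 t ht]⟩
        · obtain ⟨t, ht, hc⟩ := (gQ S).1 hS
          refine ⟨M + t, by omega, ?_⟩
          rw [e2 _ (by omega)]
          simpa using hc
      · rintro ⟨t, ht, hc⟩
        by_cases h' : t ≤ M
        · rw [e1 t h'] at hc
          exact Or.inl ((fQ S).2 ⟨t, h', hc⟩)
        · rw [e2 t (by omega)] at hc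
          exact Or.inr ((gQ S).2 ⟨t - M, by omega, hc⟩)
    · intro S t₁ t₂ t₃ h12 h23 h3 h1 h3'
      beta_reduce at *
      by_cases c3 : t₃ ≤ M
      · rw [e1 _ (by omega)] at h1 h3' ⊢
        exact fc S t₁ t₂ t₃ h12 h23 c3 h1 h3'
      by_cases c1 : M ≤ t₁
      · rw [e2 _ (by omega)] at h1 h3' ⊢
        exact gc S _ _ _ (by omega) (by omega) (by omega) h1 h3'
      rw [e1 _ (by omega)] at h1
      rw [e2 _ (by omega)] at h3'
      have hm : Ch l₁ S := h S ((fQ S).2 ⟨t₁, by omega, h1⟩) ((gQ S).2 ⟨t₃ - M, by omega, h3'⟩)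
      by_cases c2 : t₂ ≤ M
      · rw [e1 _ c2]
        exact fc S t₁ t₂ M h12 c2 le_rfl h1 (by rwa [fM])
      · rw [e2 _ (by omega)]
        exact gc S 0 _ (t₃ - M) (by omega) (by omega) (by omega) (by rwa [g0]) h3'

end Pool.Agent.Lib.MP_80d9dd_co
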